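import Mathlib

/-!
# MP_c62aed_lc, semidefinite relaxations: Hilbert-Schmidt norm and square roots (helper49)
-/

set_option autoImplicit false

namespace Pool.Agent.H49.SDP

open Matrix

section

variable {ι κ : Type} [Fintype ι] [Fintype κ]

/-- square of the Hilbert-Schmidt norm -/
def hs (A : Matrix ι κ ℝ) : ℝ := ∑ i, ∑ j, A i j ^ 2

theorem hs_nonneg (A : Matrix ι κ ℝ) : 0 ≤ hs A :=
  Finset.sum_nonneg fun _ _ => Finset.sum_nonneg fun _ _ => sq_nonneg _

theorem hs_transpose (A : Matrix ι κ ℝ) : hs Aᵀ = hs A := by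
  unfold hs
  rw [Finset.sum_comm]
  rfl

theorem hs_eq_trace (A : Matrix ι κ ℝ) : hs A = (A * Aᵀ).trace := by
  unfold hs Matrix.trace
  refine Finset.sum_congr rfl fun i _ => ?_
  rw [Matrix.diag_apply, Matrix.mul_apply]
  refine Finset.sum_congr rfl fun j _ => ?_
  rw [Matrix.transpose_apply, sq]

theorem hs_smul (c : ℝ) (A : Matrix ι κ ℝ) : hs (c • A) = c ^ 2 * hs A := by
  unfold hs
  rw [Finset.mul_sum]
  refine Finset.sum_congr rfl fun i _ => ?_
  rw [Finset.mul_sum]
  refine Finset.sum_congr rfl fun j _ => ?_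
  rw [Matrix.smul_apply, smul_eq_mul, mul_pow]

theorem hs_add_le (A B : Matrix ι κ ℝ) : hs (A + B) ≤ 2 * hs A + 2 * hs B := by
  unfold hs
  rw [Finset.mul_sum, Finset.mul_sum, ← Finset.sum_add_distrib]
  refine Finset.sum_le_sum fun i _ => ?_
  rw [Finset.mul_sum, Finset.mul_sum, ← Finset.sum_add_distrib]
  refine Finset.sum_le_sum fun j _ => ?_
  rw [Matrix.add_apply]
  nlinarith [sq_nonneg (A i j - B i j)]

theorem hs_sum_le {α : Type} [Fintype α] (M : α → Matrix ι κ ℝ) :
    hs (∑ x, M x) ≤ (Fintype.card α : ℝ) * ∑ x, hs (M x) := by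
  unfold hs
  have h1 : ∑ x, ∑ i, ∑ j, M x i j ^ 2 = ∑ i, ∑ j, ∑ x, M x i j ^ 2 := by
    rw [Finset.sum_comm]
    refine Finset.sum_congr rfl fun i _ => ?_
    rw [Finset.sum_comm]
  rw [h1, Finset.mul_sum]
  refine Finset.sum_le_sum fun i _ => ?_
  rw [Finset.mul_sum]
  refine Finset.sum_le_sum fun j _ => ?_
  rw [Matrix.sum_apply]
  have := sq_sum_le_card_mul_sum_sq (s := Finset.univ) (f := fun x => M x i j)
  simpa using this

theorem hs_mul_transpose (W : Matrix κ ι ℝ) : hs (W * Wᵀ) = hs (Wᵀ * W) := by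
  rw [hs_eq_trace, hs_eq_trace, Matrix.transpose_mul, Matrix.transpose_transpose,
    Matrix.transpose_mul, Matrix.transpose_transpose, Matrix.mul_assoc W, Matrix.trace_mul_comm,
    ← Matrix.mul_assoc, Matrix.mul_assoc, Matrix.mul_assoc]

/-- Cauchy-Schwarz -/
theorem trace_mul_sq_le (A : Matrix ι κ ℝ) (B : Matrix κ ι ℝ) :
    (A * B).trace ^ 2 ≤ hs A * hs B := by
  have h1 : (A * B).trace = ∑ x : ι × κ, A x.1 x.2 * B x.2 x.1 := by
    rw [Fintype.sum_prod_type]
    rfl
  have h2 : hs A = ∑ x : ι × κ, A x.1 x.2 ^ 2 := by rw [Fintype.sum_prod_type]; rfl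
  have h3 : hs B = ∑ x : ι × κ, B x.2 x.1 ^ 2 := by
    rw [Fintype.sum_prod_type_right]
    rfl
  rw [h1, h2, h3]
  exact Finset.sum_mul_sq_le_sq_mul_sq _ _ _

end

section

variable {ι κ : Type} [Fintype ι] [Fintype κ]

omit [Fintype ι] in
theorem psd_symm {A : Matrix ι ι ℝ} (h : A.PosSemidef) : Aᵀ = A := by
  have := h.isHermitian
  rw [Matrix.IsHermitian, Matrix.conjTranspose_eq_transpose_of_trivial] at this
  exact this

theorem psd_mul_transpose (W : Matrix κ ι ℝ) : (W * Wᵀ).PosSemidef := by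
  rw [← Matrix.conjTranspose_eq_transpose_of_trivial]
  exact Matrix.posSemidef_self_mul_conjTranspose W

theorem psd_conj {A : Matrix ι ι ℝ} (h : A.PosSemidef) (W : Matrix κ ι ℝ) :
    (W * A * Wᵀ).PosSemidef := by
  rw [← Matrix.conjTranspose_eq_transpose_of_trivial]
  exact h.mul_mul_conjTranspose_same W

theorem psd_sqrt {A : Matrix ι ι ℝ} (h : A.PosSemidef) : ∃ Y : Matrix ι ι ℝ, Y.PosSemidef ∧
    Y * Y = A := by
  classical
  open scoped MatrixOrder in
  exact ⟨CFC.sqrt A, (CFC.sqrt_nonneg A).posSemidef, CFC.sqrt_mul_sqrt_self A h.nonneg⟩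

theorem trace_mul_nonneg {A B : Matrix ι ι ℝ} (hA : A.PosSemidef) (hB : B.PosSemidef) :
    0 ≤ (A * B).trace := by
  obtain ⟨Y, hY, rfl⟩ := psd_sqrt hA
  rw [Matrix.mul_assoc, Matrix.trace_mul_comm]
  have := (psd_conj hB Y).trace_nonneg
  rwa [psd_symm hY] at this

/-- the matrix inequality -/
theorem hs_sqrt_le {X Y : Matrix ι ι ℝ} (hX : X.PosSemidef) (hY : Y.PosSemidef) :
    hs ((X - Y) * (X - Y)) ≤ hs (X * X - Y * Y) := by
  have sX := psd_symm hX
  have sY := psd_symm hY
  obtain ⟨D, hD⟩ : ∃ D, D = X - Y := ⟨_, rfl⟩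
  obtain ⟨Z, hZ⟩ : ∃ Z, Z = X + Y := ⟨_, rfl⟩
  have sD : Dᵀ = D := by rw [hD, Matrix.transpose_sub, sX, sY]
  have sZ : Zᵀ = Z := by rw [hZ, Matrix.transpose_add, sX, sY]
  have e1 : X * X - Y * Y = (1 / 2 : ℝ) • (D * Z + Z * D) := by
    have : D * Z + Z * D = (2 : ℝ) • (X * X - Y * Y) := by
      rw [hD, hZ, two_smul]
      noncomm_ring
    rw [this, smul_smul]
    norm_num
  rw [← hD, e1, hs_smul]
  have e2 : hs (D * D) = (D * D * (D * D)).trace := by
    rw [hs_eq_trace, Matrix.transpose_mul, sD]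
  have e3 : hs (D * Z + Z * D) = 2 * (D * Z * (D * Z)).trace + 2 * (D * D * (Z * Z)).trace := by
    rw [hs_eq_trace, Matrix.transpose_add, Matrix.transpose_mul, Matrix.transpose_mul, sD, sZ]
    have : (D * Z + Z * D) * (Z * D + D * Z) =
        D * Z * Z * D + D * Z * (D * Z) + (Z * D * (Z * D) + Z * D * D * Z) := by noncomm_ring
    rw [this, Matrix.trace_add, Matrix.trace_add, Matrix.trace_add]
    have t1 : (D * Z * Z * D).trace = (D * D * (Z * Z)).trace := by
      rw [Matrix.trace_mul_comm (D * Z * Z) D]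
      congr 1
      noncomm_ring
    have t2 : (Z * D * (Z * D)).trace = (D * Z * (D * Z)).trace := by
      rw [show Z * D * (Z * D) = Z * (D * Z * D) by noncomm_ring, Matrix.trace_mul_comm]
      congr 1
      noncomm_ring
    have t3 : (Z * D * D * Z).trace = (D * D * (Z * Z)).trace := by
      rw [show Z * D * D * Z = Z * (D * D * Z) by noncomm_ring, Matrix.trace_mul_comm]
      congr 1
      noncomm_ring
    rw [t1, t2, t3]
    ring
  have i1 : (D * D * (D * D)).trace ≤ (D * Z * (D * Z)).trace := by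
    have h1 := trace_mul_nonneg (psd_conj hY D) hX
    rw [sD] at h1
    have h2 : (4 : ℝ) • (D * Y * D * X) = D * (Z - D) * D * (Z + D) := by
      have hYY : Z - D = (2 : ℝ) • Y := by rw [hZ, hD, two_smul]; noncomm_ring
      have hXX : Z + D = (2 : ℝ) • X := by rw [hZ, hD, two_smul]; noncomm_ring
      rw [hYY, hXX]
      simp only [Matrix.mul_smul, Matrix.smul_mul, smul_smul]
      norm_num
    have h3 : 0 ≤ (D * (Z - D) * D * (Z + D)).trace := by
      rw [← h2, Matrix.trace_smul, smul_eq_mul]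
      positivity
    have h4 : D * (Z - D) * D * (Z + D) =
        D * Z * (D * Z) + D * Z * D * D - D * (D * D * Z) - D * D * (D * D) := by noncomm_ring
    rw [h4, Matrix.trace_sub, Matrix.trace_sub, Matrix.trace_add] at h3
    have h5 : (D * Z * D * D).trace = (D * (D * D * Z)).trace := by
      rw [show D * Z * D * D = (D * Z) * (D * D) by noncomm_ring, Matrix.trace_mul_comm]
      congr 1
      noncomm_ring
    rw [h5] at h3
    linarith
  have i2 : (D * Z * (D * Z)).trace ≤ (D * D * (Z * Z)).trace := by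
    have h1 := hs_nonneg (D * Z - Z * D)
    rw [hs_eq_trace, Matrix.transpose_sub, Matrix.transpose_mul, Matrix.transpose_mul, sD, sZ] at h1
    have h2 : (D * Z - Z * D) * (Z * D - D * Z) =
        D * Z * Z * D - D * Z * (D * Z) - (Z * D * (Z * D) - Z * D * D * Z) := by noncomm_ring
    rw [h2, Matrix.trace_sub, Matrix.trace_sub, Matrix.trace_sub] at h1
    have t1 : (D * Z * Z * D).trace = (D * D * (Z * Z)).trace := by
      rw [Matrix.trace_mul_comm (D * Z * Z) D]
      congr 1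
      noncomm_ring
    have t2 : (Z * D * (Z * D)).trace = (D * Z * (D * Z)).trace := by
      rw [show Z * D * (Z * D) = Z * (D * Z * D) by noncomm_ring, Matrix.trace_mul_comm]
      congr 1
      noncomm_ring
    have t3 : (Z * D * D * Z).trace = (D * D * (Z * Z)).trace := by
      rw [show Z * D * D * Z = Z * (D * D * Z) by noncomm_ring, Matrix.trace_mul_comm]
      congr 1
      noncomm_ring
    rw [t1, t2, t3] at h1
    linarith
  rw [e2, e3]
  linarith

end

end Pool.Agent.H49.SDP
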