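import Pool.Agent.H49.SDP.Core

/-!
# MP_c62aed_lc, semidefinite relaxations: change of basis (helper49)
-/

set_option autoImplicit false

namespace Pool.Agent.H49.SDP

open Matrix

section

variable {ι : Type} [Fintype ι] [DecidableEq ι]

/-- a change of basis turns a positive definite matrix into the unit matrix -/
theorem exists_change {P : Matrix ι ι ℝ} (hP : P.PosDef) : ∃ Y Z : Matrix ι ι ℝ,
    Yᵀ = Y ∧ Zᵀ = Z ∧ Y * Z = 1 ∧ Z * Y = 1 ∧ Z * P * Z = 1 := by
  obtain ⟨Y, hY, hYY⟩ := psd_sqrt hP.posSemidef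
  have hYs : Yᵀ = Y := psd_symm hY
  have hdet : IsUnit Y.det := by
    rw [isUnit_iff_ne_zero]
    intro h0
    have h1 := hP.det_pos
    rw [← hYY, Matrix.det_mul, h0, mul_zero] at h1
    exact lt_irrefl _ h1
  refine ⟨Y, Y⁻¹, hYs, ?_, Matrix.mul_nonsing_inv Y hdet, Matrix.nonsing_inv_mul Y hdet, ?_⟩
  · rw [Matrix.transpose_nonsing_inv, hYs]
  · rw [← hYY, Matrix.mul_assoc, Matrix.mul_assoc Y, Matrix.mul_nonsing_inv Y hdet,
      Matrix.mul_one, Matrix.nonsing_inv_mul Y hdet]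

end

end Pool.Agent.H49.SDP
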