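import Pool.Agent.H96.KX.Stmt2

/-!
# Semidefinite programs for k-SAT, fixed clause width: the statement (MP_c62aed_lc, helper49)
-/

namespace Pool.Agent.H49.SDP

open Pool.Agent.H1.LP (Clause viol)
open Filter Topology

/-- A semidefinite programming relaxation of CNF-SAT on a cell of the cube.  It consists of a
spectrahedron `{y : A0 + ∑ k, y k • A k is positive semidefinite}`, given by symmetric matrices of
order `ord`, in any dimension `dim`; a feasible point `pt x` for every assignment `x` in the cell;
and for every clause `C` an affine functional (its loss), which takes at the points `pt x` values in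
`[-1, 1]`, and values `≤ 0` if `x` satisfies `C`.  The spectrahedron does not depend on the
formula. -/
structure SRelax (n : ℕ) where
  /-- the cell -/
  cell : Finset (Fin n → Bool)
  /-- the dimension of the spectrahedron -/
  dim : ℕ
  /-- the order of the matrices -/
  ord : ℕ
  /-- the constant matrix -/
  A0 : Matrix (Fin ord) (Fin ord) ℝ
  /-- the coefficient matrices -/
  A : Fin dim → Matrix (Fin ord) (Fin ord) ℝ
  /-- the feasible point of an assignment -/
  pt : (Fin n → Bool) → Fin dim → ℝ
  /-- the linear part of the loss of a clause -/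
  w : Clause n → Fin dim → ℝ
  /-- the constant part of the loss of a clause -/
  w0 : Clause n → ℝ
  symm0 : A0.IsSymm
  symm : ∀ k, (A k).IsSymm
  feas : ∀ x ∈ cell, (A0 + ∑ k, pt x k • A k).PosSemidef
  bdd : ∀ x ∈ cell, ∀ C, |∑ k, w C k * pt x k + w0 C| ≤ 1
  sound : ∀ x ∈ cell, ∀ C : Clause n, C.Sat x → ∑ k, w C k * pt x k + w0 C ≤ 0

/-- the loss of the clause `C` at the point `y`. -/
noncomputable def SRelax.loss {n : ℕ} (P : SRelax n) (C : Clause n) (y : Fin P.dim → ℝ) : ℝ :=
  ∑ k, P.w C k * y k + P.w0 C

/-- The relaxation refutes the formula `phi` with margin `de`: the total loss is at least `de` on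
the whole spectrahedron. -/
def SRelax.Refutes {n m : ℕ} (P : SRelax n) (phi : Fin m → Clause n) (de : ℝ) : Prop :=
  ∀ y : Fin P.dim → ℝ, (P.A0 + ∑ k, y k • P.A k).PosSemidef → de ≤ ∑ i, P.loss (phi i) y

/-- The family `P` of semidefinite programming relaxations on cells refutes the formula `phi` with
margin `de`: some of the cells are disjoint and cover the cube, and for each of these cells the
total loss is at least `de` on the whole spectrahedron. -/
def SRefuted {n M m : ℕ} (P : Fin M → SRelax n) (phi : Fin m → Clause n) (de : ℝ) : Prop :=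
  ∃ J : Finset (Fin M), (∀ j ∈ J, ∀ j' ∈ J, j ≠ j' → Disjoint (P j).cell (P j').cell) ∧
    (∀ x, ∃ j ∈ J, x ∈ (P j).cell) ∧ ∀ j ∈ J, (P j).Refutes phi de

open Classical in
/-- Semidefinite programs of size `2 ^ (c n)` do not refute `k`-CNFs with `O(n)` clauses and with
the gap `(1 - ε) / 2 ^ k`; the size of a semidefinite program is the number of entries of its
matrices.  There are `K` and `γ > 0` such that for all large `n` there is a finite list of
CNFs with `n` variables, at most `K n` clauses, all of width exactly `k`, every assignment violating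
at least `(1 - ε) m / 2 ^ k` of the `m` clauses, with the property: every family of semidefinite
programming relaxations on cells of the cube, fixed in advance, with total size at most
`2 ^ (c n)`, refutes at most a fraction `2 ^ (- γ n)` of the list with margin `2 ^ (- γ n)`. -/
def HardS (k : ℕ) (ε c : ℝ) : Prop :=
  ∃ (K : ℕ) (γ : ℝ), 0 < γ ∧ ∃ n₀ : ℕ, ∀ n : ℕ, n₀ ≤ n →
    ∃ (Y : ℕ) (m : Fin Y → ℕ) (phi : (a : Fin Y) → Fin (m a) → Clause n), 0 < Y ∧
      (∀ a, 1 ≤ m a ∧ m a ≤ K * n ∧
        (∀ i, (phi a i).card = k ∧ ((phi a i).image Prod.fst).card = k) ∧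
        ∀ x, (1 - ε) * ((m a : ℝ) / 2 ^ k) ≤ (viol (phi a) x : ℝ)) ∧
      ∀ (M : ℕ) (P : Fin M → SRelax n),
        ∑ j, (((P j).ord : ℝ) + 1) ^ 2 ≤ (2 : ℝ) ^ (c * n) →
        ((Finset.univ.filter (fun a => SRefuted P (phi a) ((2 : ℝ) ^ (-(γ * n))))).card : ℝ) ≤
          (2 : ℝ) ^ (-(γ * n)) * Y

/-- Exponential lower bounds for semidefinite programs with branch and bound: for every gap `ε > 0`
there are exponents `c k`, positive for all `k ≥ 3` and tending to `1 / 2`, such that semidefinite
programs of total size `2 ^ (c k n)` do not refute `k`-CNFs with `n` variables and `O(n)` clauses,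
in which every assignment violates a fraction at least `(1 - ε) / 2 ^ k` of the clauses. -/
def StatementS : Prop :=
  ∀ ε : ℝ, 0 < ε → ∃ c : ℕ → ℝ, (∀ k, 3 ≤ k → 0 < c k) ∧ Tendsto c atTop (𝓝 (1 / 2)) ∧
    ∀ k, 3 ≤ k → HardS k ε (c k)

/-- the large width case -/
def StatementW : Prop := ∀ ε : ℝ, 0 < ε → ∃ k : ℕ, HardS k ε (1 / 2 - ε)

end Pool.Agent.H49.SDP
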