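import Pool.Agent.H96.KX.Targets2
import Pool.Agent.H49.SDP.Stmt
import Pool.Agent.H49.SDP.Main

/-!
# MP_c62aed_lc: semidefinite relaxations: targets (helper49)
-/

namespace Pool.Agent.H49.SDP

open Finset Matrix
open Pool.Agent.H1.LP (Clause viol Loc Sys Agree supp ip kk)
open Pool.Agent.H96.KX (PairInd kap PDz prs hsh S_EXP3 S_RHS3 S_X3)

/-- SDUAL: approximate duality for spectrahedral relaxations (closure of the cone) -/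
def S_SDUAL : Prop :=
  ∀ (n m : ℕ) (P : SRelax n) (phi : Fin m → Clause n) (de : ℝ), P.cell.Nonempty →
    P.Refutes phi de → ∀ η : ℝ, 0 < η →
    ∃ (L : Matrix (Fin P.ord) (Fin P.ord) ℝ) (lam0 : ℝ), L.PosSemidef ∧ 0 ≤ lam0 ∧
      ∀ x ∈ P.cell, |∑ i, P.loss (phi i) (P.pt x) - de -
        (lam0 + (L * (P.A0 + ∑ k, P.pt x k • P.A k)).trace)| ≤ η

/-- CELL: the matrix inequality on a combinatorial rectangle -/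
def S_CELL : Prop :=
  ∀ (H U Z J : Type) [Fintype H] [Fintype U] [Fintype Z] [DecidableEq Z] [Nonempty H]
    [Nonempty U] [Nonempty Z] [Fintype J] [DecidableEq J] (h : H → U → Z), PairInd h →
    (Fintype.card Z : ℝ) ^ 2 ≤ Fintype.card H →
    ∀ (Φ : Bas Z J) (N t : ℕ) (D : (Fin N → Z) → ℝ) (Mx : ℝ), (∀ z, |D z| ≤ Mx) →
    (∀ c : (Fin N → J) → ℝ, (∀ κ, t ≤ lv Φ κ → c κ = 0) →
      0 ≤ ∑ z, D z * (∑ κ, c κ * ∏ i, Φ.φ (κ i) (z i)) ^ 2) →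
    ∀ (r : ℕ) (f : (Fin N → H) → Matrix (Fin r) (Fin r) ℝ)
      (g : (Fin N → U) → Matrix (Fin r) (Fin r) ℝ),
    (∀ a, (f a).PosSemidef) → (∀ x, (g x).PosSemidef) →
    ∀ (A : Finset (Fin N → H)) (X : Finset (Fin N → U)) (m σ : ℝ), 0 ≤ m → 0 < σ → σ ≤ 1 →
    (∀ a ∈ A, ∀ x ∈ X, (f a * g x).trace ≤ m) →
    -(m * (2 * Mx * σ ^ 2 * ((A.card : ℝ) * X.card) + 2 * (Mx * Real.sqrt (2 ^ N * kap H U Z N t)) *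
      r / σ ^ 3 * Real.sqrt ((A.card : ℝ) * X.card))) ≤
      ∑ a ∈ A, ∑ x ∈ X, D (fun i => h (a i) (x i)) * (f a * g x).trace

/-- ABSS: the abstract inequality.  `X` = points, `Y` = formulas, `C` = possible clauses,
`K` = kernel, `inF a c` = the clause `c` is in the formula `a`, `sat c x` = `x` satisfies `c`. -/
def S_ABSS : Prop :=
  ∀ (X Y C : Type) [Fintype X] [Fintype Y] [Fintype C] (K : Y → X → ℝ) (ka kb Mx : ℝ)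
    (inF : Y → C → Prop) (sat : C → X → Prop),
    0 ≤ ka → ka ≤ kb → 1 ≤ Mx → (∀ a x, |K a x| ≤ Mx) → (∀ a, ∑ x, K a x = Fintype.card X) →
    (∀ (f : Y → ℝ) (g : X → ℝ), (∀ a, 0 ≤ f a) → (∀ x, 0 ≤ g x) →
      -(ka * Real.sqrt ((∑ a, f a ^ 2) * ∑ x, g x ^ 2)) ≤ ∑ a, ∑ x, f a * g x * K a x) →
    (∀ (c : C) (f : Y → ℝ) (g : X → ℝ), (∀ a, 0 ≤ f a) → (∀ a, f a ≠ 0 → inF a c) →
      (∀ x, g x ≠ 0 → ¬ sat c x) →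
      |∑ a, ∑ x, f a * g x * K a x| ≤ ka * Real.sqrt ((∑ a, f a ^ 2) * ∑ x, g x ^ 2)) →
    (∀ (r : ℕ) (f : Y → Matrix (Fin r) (Fin r) ℝ) (g : X → Matrix (Fin r) (Fin r) ℝ),
      (∀ a, (f a).PosSemidef) → (∀ x, (g x).PosSemidef) →
      ∀ (A : Finset Y) (X' : Finset X) (m σ : ℝ), 0 ≤ m → 0 < σ → σ ≤ 1 →
      (∀ a ∈ A, ∀ x ∈ X', (f a * g x).trace ≤ m) →
      -(m * (2 * Mx * σ ^ 2 * ((A.card : ℝ) * X'.card) +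
        2 * kb * r / σ ^ 3 * Real.sqrt ((A.card : ℝ) * X'.card))) ≤
        ∑ a ∈ A, ∑ x ∈ X', K a x * (f a * g x).trace) →
    ∀ (M : ℕ) (A : Finset Y) (J : Y → Finset (Fin M)) (cell : Fin M → Set X) (r : Fin M → ℕ)
      (S : (j : Fin M) → X → Matrix (Fin (r j)) (Fin (r j)) ℝ)
      (L : Y → (j : Fin M) → Matrix (Fin (r j)) (Fin (r j)) ℝ)
      (lam0 : Y → Fin M → ℝ) (ls : Fin M → C → X → ℝ) (de : ℝ) (F : Y → Finset C),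
      0 < de → (∀ a c, c ∈ F a ↔ inF a c) →
      (∀ a ∈ A, ∀ x, ∃ j ∈ J a, x ∈ cell j) →
      (∀ a ∈ A, ∀ j ∈ J a, ∀ j' ∈ J a, j ≠ j' → Disjoint (cell j) (cell j')) →
      (∀ j, ∀ x ∈ cell j, (S j x).PosSemidef) → (∀ a j, (L a j).PosSemidef) →
      (∀ a j, 0 ≤ lam0 a j) →
      (∀ j c, ∀ x ∈ cell j, |ls j c x| ≤ 1) → (∀ j c, ∀ x ∈ cell j, sat c x → ls j c x ≤ 0) →
      (∀ a ∈ A, ∀ j ∈ J a, ∀ x ∈ cell j,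
        |∑ c ∈ F a, ls j c x - de - (lam0 a j + (L a j * S j x).trace)| ≤ de / (4 * Mx)) →
      de ^ 5 * A.card * Fintype.card X ≤
        32768 * Mx ^ 3 * (Fintype.card C : ℝ) ^ 5 * kb ^ 2 * ∑ j, ((r j : ℝ) + 1) ^ 2

/-- PSQ: squares of functions with few active coordinates -/
def S_PSQ : Prop :=
  ∀ (p B d t : ℕ) [Fact p.Prime] (S : Loc p B d), 2 * t ≤ d + 2 →
    ∀ P : (Fin B → ZMod p) → ℝ,
    (∀ l : Fin B → ZMod p, t ≤ (supp l).card →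
      ∑ z, (P z : ℂ) * ZMod.stdAddChar (ip l z) = 0) →
    0 ≤ ∑ z, PDz S z * P z ^ 2

/-- HAR: the Hartley basis `cos + sin` of the real functions on `ZMod p` -/
def S_HAR : Prop :=
  ∀ (p : ℕ) [Fact p.Prime], ∃ Φ : Bas (ZMod p) (ZMod p), Φ.o = 0 ∧
    ∀ κ z, Φ.φ κ z = (ZMod.stdAddChar (κ * z) : ℂ).re + (ZMod.stdAddChar (κ * z) : ℂ).im

/-- HAF: `S_HAF`, the Fourier support of a combination of products of the Hartley basis -/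
def S_HAF : Prop :=
  ∀ (p B t : ℕ) [Fact p.Prime] (Φ : Bas (ZMod p) (ZMod p)), Φ.o = 0 →
    (∀ κ z, Φ.φ κ z = (ZMod.stdAddChar (κ * z) : ℂ).re + (ZMod.stdAddChar (κ * z) : ℂ).im) →
    ∀ c : (Fin B → ZMod p) → ℝ, (∀ κ, t ≤ lv Φ κ → c κ = 0) →
    ∀ l : Fin B → ZMod p, t ≤ (supp l).card →
      ∑ z, ((∑ κ, c κ * ∏ i, Φ.φ (κ i) (z i) : ℝ) : ℂ) * ZMod.stdAddChar (ip l z) = 0

/-- the core inequality; `b = (4E+1)(L+1)` bits per block, width `b kk E` -/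
def S_CORES : Prop :=
  ∀ (E L n B : ℕ), 16 ≤ E → 2 ≤ L → 2 * kk E ≤ B → B * ((4 * E + 1) * (L + 1)) ≤ n →
    ∃ (Y : ℕ) (m : Fin Y → ℕ) (phi : (a : Fin Y) → Fin (m a) → Clause n), 0 < Y ∧
      (∀ a, 1 ≤ m a ∧ m a ≤ 4 * E * B * 2 ^ ((4 * E + 1) * (L + 1) * kk E) ∧
        (∀ i, (phi a i).card = (4 * E + 1) * (L + 1) * kk E ∧
          ((phi a i).image Prod.fst).card = (4 * E + 1) * (L + 1) * kk E) ∧
        ∀ x, (1 - 1 / (E : ℝ)) * ((m a : ℝ) / 2 ^ ((4 * E + 1) * (L + 1) * kk E)) ≤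
          (viol (phi a) x : ℝ)) ∧
      ∀ (M : ℕ) (P : Fin M → SRelax n) (A : Finset (Fin Y)) (de : ℝ), 0 < de →
        (∀ a ∈ A, SRefuted P (phi a) de) →
        de ^ 5 * A.card * 2 ^ (4 * E * (L - 2) * ((B - 8 * (B / E)) / 2 + 1)) ≤
          32768 * (4 * E * B * 2 ^ ((4 * E + 1) * (L + 1) * kk E)) ^ 5 *
            (2 ^ (4 * E + 1)) ^ (5 * B) * 8 ^ B * (∑ j, (((P j).ord : ℝ) + 1) ^ 2) * Y

/-- PARMS: choice of the parameters -/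
def S_PARMS : Prop :=
  ∀ ε : ℝ, 0 < ε → ∃ (E L K : ℕ) (γ : ℝ), 16 ≤ E ∧ 2 ≤ L ∧ 1 / (E : ℝ) ≤ ε ∧ 0 < γ ∧
    ∃ n₀ : ℕ, ∀ n : ℕ, n₀ ≤ n → ∃ B : ℕ, 2 * kk E ≤ B ∧ B * ((4 * E + 1) * (L + 1)) ≤ n ∧
      4 * E * B * 2 ^ ((4 * E + 1) * (L + 1) * kk E) ≤ K * n ∧
      ∀ (W c Y : ℝ), 0 ≤ Y → W ≤ (2 : ℝ) ^ ((1 / 2 - ε) * n) →
        ((2 : ℝ) ^ (-(γ * n))) ^ 5 * c * 2 ^ (4 * E * (L - 2) * ((B - 8 * (B / E)) / 2 + 1)) ≤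
          32768 * (4 * E * B * 2 ^ ((4 * E + 1) * (L + 1) * kk E)) ^ 5 *
            (2 ^ (4 * E + 1)) ^ (5 * B) * 8 ^ B * W * Y →
        c ≤ (2 : ℝ) ^ (-(γ * n)) * Y

/-- CORE3S: the core inequality for width 3 -/
def S_CORE3S : Prop :=
  ∀ (B R t q n : ℕ) (ε : ℝ) (T : Fin R → Finset (Fin B)) (Ys : Sys 2 B R t (t / 3)),
    1 ≤ R → 9 ≤ t → 4 ≤ q → B * q ≤ n → (∀ i, (T i).card = 3) →
    (∀ i j, Ys.A i j = if j ∈ T i then 1 else 0) →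
    (∀ z : Fin B → ZMod 2, (1 - ε) * ((R : ℝ) / 2) ≤
      ((univ.filter (fun i => ip (Ys.A i) z ≠ Ys.be i)).card : ℝ)) →
    ∃ (Y : ℕ) (m : Fin Y → ℕ) (phi : (a : Fin Y) → Fin (m a) → Clause n), 0 < Y ∧
      (∀ a, 1 ≤ m a ∧ m a ≤ 4 * R ∧
        (∀ i, (phi a i).card = 3 ∧ ((phi a i).image Prod.fst).card = 3) ∧
        ∀ x, (1 - ε) * ((m a : ℝ) / 2 ^ 3) ≤ (viol (phi a) x : ℝ)) ∧
      ∀ (M : ℕ) (P : Fin M → SRelax n) (A : Finset (Fin Y)) (de : ℝ), 0 < de →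
        (∀ a ∈ A, SRefuted P (phi a) de) →
        de ^ 5 * A.card * ((q : ℝ) / 4) ^ (t / 3 / 2 + 1) ≤
          32768 * (R * (2 * q) ^ 3) ^ 5 * 256 ^ B * (∑ j, (((P j).ord : ℝ) + 1) ^ 2) * Y

/-- PARM3S: choice of the parameters for width 3 -/
def S_PARM3S : Prop :=
  ∀ R0 E B0 : ℕ, 1 ≤ R0 → 1 ≤ E → ∃ (q K : ℕ) (γ c : ℝ), 4 ≤ q ∧ 0 < γ ∧ 0 < c ∧
    ∃ n₀ : ℕ, ∀ n : ℕ, n₀ ≤ n → ∃ B : ℕ, B0 ≤ B ∧ 1 ≤ B ∧ 9 ≤ B / E ∧ B * q ≤ n ∧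
      4 * (R0 * B) ≤ K * n ∧
      ∀ (W N Y : ℝ), 0 ≤ Y → W ≤ (2 : ℝ) ^ (c * n) →
        ((2 : ℝ) ^ (-(γ * n))) ^ 5 * N * ((q : ℝ) / 4) ^ ((B / E) / 3 / 2 + 1) ≤
          32768 * (((R0 * B : ℕ) : ℝ) * (2 * q) ^ 3) ^ 5 * 256 ^ B * W * Y →
        N ≤ (2 : ℝ) ^ (-(γ * n)) * Y

/-- FINS -/
def S_FINS : Prop := S_CORES → S_PARMS → StatementW

/-- FIN3S -/
def S_FIN3S : Prop :=
  S_X3 → S_CORE3S → S_PARM3S → ∀ ε : ℝ, 0 < ε → ∃ c : ℝ, 0 < c ∧ HardS 3 ε c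

/-- PADS: padding of the clauses -/
def S_PADS : Prop :=
  ∀ (w k : ℕ) (ε c c' : ℝ), w ≤ k → c' < c → HardS w ε c → HardS k ε c'

/-- LIMS -/
def S_LIMS : Prop :=
  S_PADS → StatementW → (∀ ε : ℝ, 0 < ε → ∃ c : ℝ, 0 < c ∧ HardS 3 ε c) → StatementS

end Pool.Agent.H49.SDP
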