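import Pool.Agent.H49.SDP.CORE3S
import Pool.Agent.H49.KX3.RHS3
import Pool.Agent.H96.KX.Asm
import Pool.Agent.H35.KX.IDX
import Pool.Agent.H39.KX.FRM3
import Pool.Agent.H77.KX.EXP3
import Pool.Agent.H11.KX.X3
import Pool.Agent.H4.SDP.ABSS
import Pool.Agent.H70.SDP.SDUAL
import Pool.Agent.H19.SDP.PARM3S
import Pool.Agent.H58.SDP.FIN3S

/-! # MP_c62aed_lc, SDP relaxations for 3-SAT: assembly (helper49) -/

namespace Pool.Agent.H49.SDP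

open Pool.Agent.H96.KX (S_X3)

/-- the core inequality for width 3 -/
theorem core3s : S_CORE3S :=
  pf_CORE3S H35.KX.pf_IDX H96.KX.bip' H96.KX.biz' H77.KX.pf_MAS H39.KX.pf_PDA H86.KX.pf_PDP
    H4.SDP.pf_ABSS pf_CELL H70.SDP.pf_SDUAL H39.KX.pf_FRM3 H2.LP.loc

/-- semidefinite relaxations of size `2 ^ (c n)` do not refute 3-CNFs -/
theorem hardS3 : ∀ ε : ℝ, 0 < ε → ∃ c : ℝ, 0 < c ∧ HardS 3 ε c :=
  H58.SDP.pf_FIN3S (H11.KX.pf_X3 H77.KX.pf_EXP3 H49.KX3.pf_RHS3) core3s H19.SDP.pf_PARM3S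

end Pool.Agent.H49.SDP
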