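import Pool.Agent.H49.SDP.Step

/-!
# Orthonormal bases with a constant first vector (copy of helper73's exists_bas, MP_c62aed_lc)
-/

namespace Pool.Agent.H49.SDP

open Finset

/-- an orthonormal basis of the functions on a finite set which contains the constant `1` -/
theorem exists_bas (Sg : Type) [Fintype Sg] [DecidableEq Sg] [Nonempty Sg] :
    Nonempty (Bas Sg Sg) := by
  obtain ⟨o⟩ := ‹Nonempty Sg›
  have hn : (0 : ℝ) < Fintype.card Sg := by
    have : 0 < Fintype.card Sg := Fintype.card_pos_iff.mpr ⟨o⟩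
    exact_mod_cast this
  have hs : 0 < Real.sqrt (Fintype.card Sg) := Real.sqrt_pos.mpr hn
  have hss : Real.sqrt (Fintype.card Sg) * Real.sqrt (Fintype.card Sg) = Fintype.card Sg :=
    Real.mul_self_sqrt hn.le
  let v : Sg → EuclideanSpace ℝ Sg := fun _ =>
    WithLp.toLp 2 (fun _ => (Real.sqrt (Fintype.card Sg))⁻¹)
  have hv : Orthonormal ℝ (({o} : Set Sg).domRestrict v) := by
    rw [orthonormal_iff_ite]
    rintro ⟨x, hx⟩ ⟨y, hy⟩
    rw [Set.mem_singleton_iff] at hx hy
    subst hx hy
    rw [if_pos rfl, PiLp.inner_apply]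
    have h0 : ∀ z : Sg, inner ℝ ((({y} : Set Sg).domRestrict v ⟨y, hx⟩) z)
        ((({y} : Set Sg).domRestrict v ⟨y, hy⟩) z) = (Fintype.card Sg : ℝ)⁻¹ := by
      intro z
      rw [RCLike.inner_apply, conj_trivial, ← hss, mul_inv]
      rfl
    rw [Finset.sum_congr rfl fun z _ => h0 z, Finset.sum_const, card_univ, nsmul_eq_mul,
      mul_inv_cancel₀ hn.ne']
  obtain ⟨b, hb⟩ := hv.exists_orthonormalBasis_extension_of_card_eq (by simp)
  refine ⟨⟨fun κ z => Real.sqrt (Fintype.card Sg) * b κ z, o, ?_, ?_, ?_⟩⟩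
  · intro z
    rw [hb o (Set.mem_singleton o)]
    simp only [v]
    exact mul_inv_cancel₀ hs.ne'
  · intro κ κ'
    have h1 := b.orthonormal
    rw [orthonormal_iff_ite] at h1
    have h2 := h1 κ κ'
    rw [PiLp.inner_apply] at h2
    simp only [RCLike.inner_apply, conj_trivial] at h2
    have h3 : ∑ z, Real.sqrt (Fintype.card Sg) * b κ z * (Real.sqrt (Fintype.card Sg) * b κ' z) =
        Fintype.card Sg * ∑ z, b κ' z * b κ z := by
      rw [mul_sum]
      refine sum_congr rfl fun z _ => ?_
      linear_combination (b κ' z * b κ z) * hss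
    rw [h3, h2]
    split_ifs <;> ring
  · intro z z'
    have h1 := b.sum_inner_mul_inner (EuclideanSpace.single z (1 : ℝ))
      (EuclideanSpace.single z' (1 : ℝ))
    have h4 : ∀ κ, inner ℝ (EuclideanSpace.single z (1 : ℝ)) (b κ) *
        inner ℝ (b κ) (EuclideanSpace.single z' (1 : ℝ)) = b κ z * b κ z' := by
      intro κ
      rw [EuclideanSpace.inner_single_left, EuclideanSpace.inner_single_right]
      simp
    rw [sum_congr rfl fun κ _ => h4 κ] at h1
    have h3 : ∑ κ, Real.sqrt (Fintype.card Sg) * b κ z * (Real.sqrt (Fintype.card Sg) * b κ z') =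
        Fintype.card Sg * ∑ κ, b κ z * b κ z' := by
      rw [mul_sum]
      refine sum_congr rfl fun κ _ => ?_
      linear_combination (b κ z * b κ z') * hss
    rw [h3, h1, EuclideanSpace.inner_single_left]
    by_cases h : z = z'
    · subst h
      simp
    · have : z' ≠ z := fun h' => h h'.symm
      simp [h]

end Pool.Agent.H49.SDP
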