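import Pool.Agent.H49.SDP.Rec

/-!
# MP_c62aed_lc, semidefinite relaxations: the high part, the quadratic estimate (helper49)
-/

set_option autoImplicit false

namespace Pool.Agent.H49.SDP

open Matrix

section

variable {Sg J : Type} [Fintype Sg] [Fintype J] [DecidableEq Sg] [DecidableEq J]

theorem Bas.card_eq [Nonempty Sg] (Φ : Bas Sg J) : Fintype.card J = Fintype.card Sg := by
  have hQ := card_pos (Sg := Sg)
  have h1 : ∑ κ, ∑ z, Φ.φ κ z * Φ.φ κ z = (Fintype.card J : ℝ) * Fintype.card Sg := by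
    rw [Finset.sum_congr rfl fun κ _ => Φ.orth κ κ]
    simp
  have h2 : ∑ z, ∑ κ, Φ.φ κ z * Φ.φ κ z = (Fintype.card Sg : ℝ) * Fintype.card Sg := by
    rw [Finset.sum_congr rfl fun z _ => Φ.compl z z]
    simp
  rw [Finset.sum_comm, h2] at h1
  exact_mod_cast (mul_right_cancel₀ hQ.ne' h1).symm

/-- number of the coordinates with a nonconstant basis function -/
def lv (Φ : Bas Sg J) {N : ℕ} (κ : Fin N → J) : ℕ := (Finset.univ.filter fun i => κ i ≠ Φ.o).card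

theorem prod_w_sq (Φ : Bas Sg J) {s : ℝ} (h : 0 < s) {N : ℕ} (κ : Fin N → J) :
    ∏ i, Φ.w s (κ i) ^ 2 = s ^ lv Φ κ := by
  have h1 : ∀ i, Φ.w s (κ i) ^ 2 = if κ i ≠ Φ.o then s else 1 := by
    intro i
    rw [Φ.w_sq h]
    by_cases hi : κ i = Φ.o
    · rw [if_pos hi, if_neg (by simpa using hi)]; ring
    · rw [if_neg hi, if_pos hi]; ring
  rw [Finset.prod_congr rfl fun i _ => h1 i, Finset.prod_ite, Finset.prod_const,
    Finset.prod_const_one, mul_one]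
  rfl

theorem psi_orth (Φ : Bas Sg J) {s : ℝ} (h : 0 < s) (κ κ' : J) :
    ∑ z, Φ.ψ s κ z * Φ.ψ s κ' z = if κ = κ' then (Fintype.card Sg : ℝ) / Φ.w s κ ^ 2 else 0 := by
  have h1 : ∀ z, Φ.ψ s κ z * Φ.ψ s κ' z = (Φ.φ κ z * Φ.φ κ' z) * (1 / (Φ.w s κ * Φ.w s κ')) := by
    intro z
    unfold Bas.ψ
    have := (Φ.w_pos h κ).ne'
    have := (Φ.w_pos h κ').ne'
    field_simp
  rw [Finset.sum_congr rfl fun z _ => h1 z, ← Finset.sum_mul, Φ.orth]
  split_ifs with hk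
  · rw [← hk, sq]
    ring
  · ring

theorem Psi_orth (Φ : Bas Sg J) {s : ℝ} (h : 0 < s) {N : ℕ} (κ κ' : Fin N → J) :
    ∑ z, Psi Φ s κ z * Psi Φ s κ' z =
      if κ = κ' then (Fintype.card Sg : ℝ) ^ N / s ^ lv Φ κ else 0 := by
  have h1 : ∀ z, Psi Φ s κ z * Psi Φ s κ' z = ∏ i, Φ.ψ s (κ i) (z i) * Φ.ψ s (κ' i) (z i) := by
    intro z
    unfold Psi
    rw [Finset.prod_mul_distrib]
  rw [Finset.sum_congr rfl fun z _ => h1 z]
  have h2 : ∑ z : Fin N → Sg, ∏ i, Φ.ψ s (κ i) (z i) * Φ.ψ s (κ' i) (z i) =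
      ∏ i, ∑ x, Φ.ψ s (κ i) x * Φ.ψ s (κ' i) x := by
    rw [Finset.prod_univ_sum]
    simp
  rw [h2, Finset.prod_congr rfl fun i _ => psi_orth Φ h (κ i) (κ' i)]
  by_cases hk : κ = κ'
  · rw [if_pos hk, ← prod_w_sq Φ h κ]
    have h3 : ∀ i, (if κ i = κ' i then (Fintype.card Sg : ℝ) / Φ.w s (κ i) ^ 2 else 0) =
        (Fintype.card Sg : ℝ) / Φ.w s (κ i) ^ 2 := by
      intro i
      rw [if_pos (by rw [hk])]
    rw [Finset.prod_congr rfl fun i _ => h3 i, Finset.prod_div_distrib, Finset.prod_const,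
      Finset.card_univ, Fintype.card_fin]
  · rw [if_neg hk]
    obtain ⟨i, hi⟩ := Function.ne_iff.1 hk
    exact Finset.prod_eq_zero (Finset.mem_univ i) (if_neg hi)

/-- the quadratic estimate -/
theorem quad (Φ : Bas Sg J) {s : ℝ} (h : 0 < s) {N t : ℕ} {Mx τ : ℝ} (hτ : 0 < τ)
    (D : (Fin N → Sg) → ℝ) (hDM : ∀ z, |D z| ≤ Mx)
    (hDp : ∀ c : (Fin N → J) → ℝ, (∀ κ, t ≤ lv Φ κ → c κ = 0) →
      0 ≤ ∑ z, D z * (∑ κ, c κ * Psi Φ s κ z) ^ 2)
    (g : Matrix (Fin N → J) (Fin N → J) ℝ) (hg : g.PosSemidef) :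
    -(Mx * (Fintype.card Sg : ℝ) ^ N * (τ * (∑ κ, if t ≤ lv Φ κ then 0 else g κ κ / s ^ lv Φ κ) +
      (1 + 1 / τ) * ∑ κ, if t ≤ lv Φ κ then g κ κ / s ^ lv Φ κ else 0)) ≤
    ∑ z, D z * ∑ κ, ∑ κ', Psi Φ s κ z * Psi Φ s κ' z * g κ κ' := by
  obtain ⟨Y, hY, hYY⟩ := psd_sqrt hg
  have hYs : Yᵀ = Y := psd_symm hY
  have hgY : ∀ κ κ', g κ κ' = ∑ r, Y κ r * Y κ' r := by
    intro κ κ'
    rw [← hYY, Matrix.mul_apply]
    refine Finset.sum_congr rfl fun r _ => ?_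
    congr 1
    conv_lhs => rw [← hYs]
    rfl
  obtain ⟨lo, hlo⟩ : ∃ lo : (Fin N → J) → (Fin N → Sg) → ℝ, lo = fun r z =>
    ∑ κ, (if t ≤ lv Φ κ then 0 else Y κ r) * Psi Φ s κ z := ⟨_, rfl⟩
  obtain ⟨hi, hhi⟩ : ∃ hi : (Fin N → J) → (Fin N → Sg) → ℝ, hi = fun r z =>
    ∑ κ, (if t ≤ lv Φ κ then Y κ r else 0) * Psi Φ s κ z := ⟨_, rfl⟩
  have h1 : ∀ z, ∑ κ, ∑ κ', Psi Φ s κ z * Psi Φ s κ' z * g κ κ' = ∑ r, (lo r z + hi r z) ^ 2 := by
    intro z
    have e1 : ∀ r, lo r z + hi r z = ∑ κ, Y κ r * Psi Φ s κ z := by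
      intro r
      rw [hlo, hhi]
      dsimp only
      rw [← Finset.sum_add_distrib]
      refine Finset.sum_congr rfl fun κ _ => ?_
      split_ifs <;> ring
    have e2 : ∀ r, (lo r z + hi r z) ^ 2 =
        ∑ κ, ∑ κ', (Y κ r * Psi Φ s κ z) * (Y κ' r * Psi Φ s κ' z) := by
      intro r
      rw [e1, sq, Finset.sum_mul]
      refine Finset.sum_congr rfl fun κ _ => ?_
      rw [Finset.mul_sum]
    rw [Finset.sum_congr rfl fun r _ => e2 r]
    symm
    rw [Finset.sum_comm]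
    refine Finset.sum_congr rfl fun κ _ => ?_
    rw [Finset.sum_comm]
    refine Finset.sum_congr rfl fun κ' _ => ?_
    rw [hgY, Finset.mul_sum]
    refine Finset.sum_congr rfl fun r _ => ?_
    ring
  have h2 : ∀ (P : (Fin N → J) → Prop) [DecidablePred P],
      ∑ r, ∑ z, (∑ κ, (if P κ then Y κ r else 0) * Psi Φ s κ z) ^ 2 =
      (Fintype.card Sg : ℝ) ^ N * ∑ κ, if P κ then g κ κ / s ^ lv Φ κ else 0 := by
    intro P _
    have e1 : ∀ r, ∑ z, (∑ κ, (if P κ then Y κ r else 0) * Psi Φ s κ z) ^ 2 =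
        ∑ κ, (if P κ then Y κ r else 0) * (if P κ then Y κ r else 0) *
          ((Fintype.card Sg : ℝ) ^ N / s ^ lv Φ κ) := by
      intro r
      have e2 : ∀ z, (∑ κ, (if P κ then Y κ r else 0) * Psi Φ s κ z) ^ 2 =
          ∑ κ, ∑ κ', ((if P κ then Y κ r else 0) * (if P κ' then Y κ' r else 0)) *
            (Psi Φ s κ z * Psi Φ s κ' z) := by
        intro z
        rw [sq, Finset.sum_mul]
        refine Finset.sum_congr rfl fun κ _ => ?_
        rw [Finset.mul_sum]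
        refine Finset.sum_congr rfl fun κ' _ => ?_
        ring
      rw [Finset.sum_congr rfl fun z _ => e2 z, Finset.sum_comm]
      refine Finset.sum_congr rfl fun κ _ => ?_
      rw [Finset.sum_comm]
      have e3 : ∀ κ', ∑ z, ((if P κ then Y κ r else 0) * (if P κ' then Y κ' r else 0)) *
            (Psi Φ s κ z * Psi Φ s κ' z) =
          if κ = κ' then (if P κ then Y κ r else 0) * (if P κ' then Y κ' r else 0) *
            ((Fintype.card Sg : ℝ) ^ N / s ^ lv Φ κ) else 0 := by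
        intro κ'
        rw [← Finset.mul_sum, Psi_orth Φ h]
        split_ifs <;> ring
      rw [Finset.sum_congr rfl fun κ' _ => e3 κ', Finset.sum_ite_eq Finset.univ κ,
        if_pos (Finset.mem_univ _)]
    rw [Finset.sum_congr rfl fun r _ => e1 r, Finset.sum_comm, Finset.mul_sum]
    refine Finset.sum_congr rfl fun κ _ => ?_
    by_cases hP : P κ
    · simp only [if_pos hP]
      rw [← Finset.sum_mul, ← hgY]
      ring
    · simp only [if_neg hP]
      simp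
  have h3 : ∀ r, 0 ≤ ∑ z, D z * lo r z ^ 2 := by
    intro r
    rw [hlo]
    refine hDp (fun κ => if t ≤ lv Φ κ then 0 else Y κ r) fun κ hκ => if_pos hκ
  have h4 : ∀ r z, D z * lo r z ^ 2 - Mx * (τ * lo r z ^ 2 + (1 + 1 / τ) * hi r z ^ 2) ≤
      D z * (lo r z + hi r z) ^ 2 := by
    intro r z
    generalize lo r z = l
    generalize hi r z = x
    have hM := hDM z
    have hx : |D z * (2 * l * x + x ^ 2)| ≤ Mx * (τ * l ^ 2 + (1 + 1 / τ) * x ^ 2) := by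
      rw [abs_mul]
      refine mul_le_mul hM ?_ (abs_nonneg _) ((abs_nonneg _).trans hM)
      have e1 : (0 : ℝ) ≤ τ * (l + x / τ) ^ 2 := by positivity
      have e2 : (0 : ℝ) ≤ τ * (l - x / τ) ^ 2 := by positivity
      have e3 : τ * (l + x / τ) ^ 2 = τ * l ^ 2 + 2 * l * x + (1 / τ) * x ^ 2 := by
        field_simp
        ring
      have e4 : τ * (l - x / τ) ^ 2 = τ * l ^ 2 - 2 * l * x + (1 / τ) * x ^ 2 := by
        field_simp
        ring
      rw [e3] at e1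
      rw [e4] at e2
      rw [abs_le]
      constructor
      · nlinarith [sq_nonneg x]
      · nlinarith [sq_nonneg x]
    have := (abs_le.1 hx).1
    nlinarith
  have h5 : ∑ z, D z * ∑ κ, ∑ κ', Psi Φ s κ z * Psi Φ s κ' z * g κ κ' =
      ∑ r, ∑ z, D z * (lo r z + hi r z) ^ 2 := by
    rw [Finset.sum_comm]
    refine Finset.sum_congr rfl fun z _ => ?_
    rw [h1, Finset.mul_sum]
  have h6 : ∑ r, ∑ z, (D z * lo r z ^ 2 - Mx * (τ * lo r z ^ 2 + (1 + 1 / τ) * hi r z ^ 2)) ≤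
      ∑ r, ∑ z, D z * (lo r z + hi r z) ^ 2 :=
    Finset.sum_le_sum fun r _ => Finset.sum_le_sum fun z _ => h4 r z
  have h7 : ∑ r, ∑ z, (D z * lo r z ^ 2 - Mx * (τ * lo r z ^ 2 + (1 + 1 / τ) * hi r z ^ 2)) =
      ∑ r, ∑ z, D z * lo r z ^ 2 - Mx * (τ * ∑ r, ∑ z, lo r z ^ 2 +
        (1 + 1 / τ) * ∑ r, ∑ z, hi r z ^ 2) := by
    simp only [Finset.sum_sub_distrib, Finset.mul_sum, Finset.sum_add_distrib, mul_add]
  have h8 : ∑ r, ∑ z, lo r z ^ 2 = (Fintype.card Sg : ℝ) ^ N *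
      ∑ κ, if t ≤ lv Φ κ then 0 else g κ κ / s ^ lv Φ κ := by
    have := h2 (fun κ => ¬ t ≤ lv Φ κ)
    rw [hlo]
    simp only [ite_not] at this
    exact this
  have h9 : ∑ r, ∑ z, hi r z ^ 2 = (Fintype.card Sg : ℝ) ^ N *
      ∑ κ, if t ≤ lv Φ κ then g κ κ / s ^ lv Φ κ else 0 := by
    rw [hhi]
    exact h2 (fun κ => t ≤ lv Φ κ)
  have h10 : 0 ≤ ∑ r, ∑ z, D z * lo r z ^ 2 := Finset.sum_nonneg fun r _ => h3 r
  rw [h5]
  refine le_trans (le_of_eq ?_) ((sub_le_sub_right h10 _).trans (h7.symm.le.trans h6))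
  rw [h8, h9]
  ring

/-- the sum of the weights of the high part -/
theorem sum_high [Nonempty Sg] (Φ : Bas Sg J) {s : ℝ} (h : 0 < s)
    (hQs : (Fintype.card Sg : ℝ) ≤ s ^ 2) (N t : ℕ) :
    ∑ κ : Fin N → J, (if t ≤ lv Φ κ then (1 / s ^ lv Φ κ) ^ 2 else 0) ≤
      2 ^ N * ((Fintype.card Sg : ℝ) / s ^ 2) ^ t := by
  have hQ := card_pos (Sg := Sg)
  have hr0 : 0 < (Fintype.card Sg : ℝ) / s ^ 2 := by positivity
  have hr1 : (Fintype.card Sg : ℝ) / s ^ 2 ≤ 1 := by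
    rw [div_le_one (by positivity)]
    exact hQs
  have h1 : ∀ κ : Fin N → J, (if t ≤ lv Φ κ then (1 / s ^ lv Φ κ) ^ 2 else 0) ≤
      ((Fintype.card Sg : ℝ) / s ^ 2) ^ t *
        ∏ i, (if κ i = Φ.o then 1 else 1 / (Fintype.card Sg : ℝ)) := by
    intro κ
    have h2 : ∏ i, (if κ i = Φ.o then 1 else 1 / (Fintype.card Sg : ℝ)) =
        (1 / (Fintype.card Sg : ℝ)) ^ lv Φ κ := by
      rw [Finset.prod_ite, Finset.prod_const_one, one_mul, Finset.prod_const]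
      rfl
    rw [h2]
    split_ifs with ht
    · have h3 : (1 / s ^ lv Φ κ) ^ 2 = ((Fintype.card Sg : ℝ) / s ^ 2) ^ lv Φ κ *
          (1 / (Fintype.card Sg : ℝ)) ^ lv Φ κ := by
        rw [← mul_pow, div_pow, one_pow, ← pow_mul, mul_comm (lv Φ κ) 2, pow_mul, ← _root_.one_div_pow]
        congr 1
        field_simp
      rw [h3]
      refine mul_le_mul_of_nonneg_right ?_ (by positivity)
      exact pow_le_pow_of_le_one hr0.le hr1 ht
    · positivity
  refine (Finset.sum_le_sum fun κ _ => h1 κ).trans ?_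
  rw [← Finset.mul_sum, mul_comm]
  refine mul_le_mul_of_nonneg_right ?_ (by positivity)
  have h4 : ∑ κ : Fin N → J, ∏ i, (if κ i = Φ.o then 1 else 1 / (Fintype.card Sg : ℝ)) =
      ∏ i : Fin N, ∑ x : J, (if x = Φ.o then 1 else 1 / (Fintype.card Sg : ℝ)) := by
    rw [Finset.prod_univ_sum]
    simp
  rw [h4, Finset.prod_const, Finset.card_univ, Fintype.card_fin]
  refine pow_le_pow_left₀ (Finset.sum_nonneg fun x _ => by split_ifs <;> positivity) ?_ N
  have h5 : ∑ x : J, (if x = Φ.o then (1 : ℝ) else 1 / (Fintype.card Sg : ℝ)) ≤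
      ∑ x : J, ((if x = Φ.o then (1 : ℝ) else 0) + 1 / (Fintype.card Sg : ℝ)) := by
    refine Finset.sum_le_sum fun x _ => ?_
    split_ifs
    · have : (0 : ℝ) < 1 / (Fintype.card Sg : ℝ) := by positivity
      linarith
    · linarith
  refine h5.trans (le_of_eq ?_)
  rw [Finset.sum_add_distrib, Finset.sum_ite_eq' Finset.univ Φ.o, if_pos (Finset.mem_univ _),
    Finset.sum_const, Finset.card_univ, Φ.card_eq, nsmul_eq_mul]
  field_simp
  norm_num

variable {ι : Type} [Fintype ι]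

/-- the partial trace -/
def ptr {K : Type} (S : Matrix ι ι ℝ) (G : Matrix (K × ι) (K × ι) ℝ) : Matrix K K ℝ :=
  Matrix.of fun κ κ' => ∑ i, ∑ j, S j i * G (κ, i) (κ', j)

theorem ptr_psd {K : Type} [Fintype K] [DecidableEq K] {S : Matrix ι ι ℝ} (hS : S.PosSemidef)
    {G : Matrix (K × ι) (K × ι) ℝ} (hG : G.PosSemidef) : (ptr S G).PosSemidef := by
  obtain ⟨Y, hY, hYY⟩ := psd_sqrt hS
  have hYs : Yᵀ = Y := psd_symm hY
  have h1 : ptr S G = ∑ r, (Matrix.of fun (κ : K) (x : K × ι) => if κ = x.1 then Y x.2 r else 0) *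
      G * (Matrix.of fun (κ : K) (x : K × ι) => if κ = x.1 then Y x.2 r else 0)ᵀ := by
    ext κ κ'
    rw [Matrix.sum_apply]
    have h2 : ∀ r, ((Matrix.of fun (κ : K) (x : K × ι) => if κ = x.1 then Y x.2 r else 0) *
        G * (Matrix.of fun (κ : K) (x : K × ι) => if κ = x.1 then Y x.2 r else 0)ᵀ) κ κ' =
        ∑ j, ∑ i, Y i r * G (κ, i) (κ', j) * Y j r := by
      intro r
      rw [Matrix.mul_apply, Fintype.sum_prod_type]
      rw [Finset.sum_eq_single κ']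
      · refine Finset.sum_congr rfl fun j _ => ?_
        rw [Matrix.transpose_apply, Matrix.of_apply, if_pos rfl, Matrix.mul_apply,
          Fintype.sum_prod_type, Finset.sum_eq_single κ, Finset.sum_mul]
        · refine Finset.sum_congr rfl fun i _ => ?_
          rw [Matrix.of_apply, if_pos rfl]
        · intro κ1 _ hk
          refine Finset.sum_eq_zero fun i _ => ?_
          rw [Matrix.of_apply, if_neg (Ne.symm hk), zero_mul]
        · intro hk
          exact absurd (Finset.mem_univ _) hk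
      · intro κ1 _ hk
        refine Finset.sum_eq_zero fun j _ => ?_
        rw [Matrix.transpose_apply, Matrix.of_apply, if_neg (Ne.symm hk), mul_zero]
      · intro hk
        exact absurd (Finset.mem_univ _) hk
    rw [Finset.sum_congr rfl fun r _ => h2 r]
    have h3 : ptr S G κ κ' = ∑ j, ∑ i, ∑ r, Y i r * G (κ, i) (κ', j) * Y j r := by
      unfold ptr
      rw [Matrix.of_apply, Finset.sum_comm]
      refine Finset.sum_congr rfl fun j _ => Finset.sum_congr rfl fun i _ => ?_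
      rw [← hYY, Matrix.mul_apply, Finset.sum_mul]
      refine Finset.sum_congr rfl fun r _ => ?_
      have : Y r i = Y i r := by
        conv_lhs => rw [← hYs]
        rfl
      rw [this]
      ring
    rw [h3]
    have h4 : ∀ j, ∑ i, ∑ r, Y i r * G (κ, i) (κ', j) * Y j r =
        ∑ r, ∑ i, Y i r * G (κ, i) (κ', j) * Y j r := fun j => Finset.sum_comm
    rw [Finset.sum_congr rfl fun j _ => h4 j]
    exact Finset.sum_comm
  rw [h1]
  exact Matrix.posSemidef_sum _ fun r _ => psd_conj hG _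

/-- the high part of the Gram matrix -/
noncomputable def Ght (Φ : Bas Sg J) (s : ℝ) {N : ℕ} (t : ℕ)
    (G : Matrix ((Fin N → J) × ι) ((Fin N → J) × ι) ℝ) : Matrix ι ι ℝ :=
  Matrix.of fun i j => ∑ κ, (if t ≤ lv Φ κ then 1 / s ^ lv Φ κ else 0) * G (κ, i) (κ, j)

theorem trace_Ght (Φ : Bas Sg J) (s : ℝ) {N : ℕ} (t : ℕ) (S : Matrix ι ι ℝ)
    (G : Matrix ((Fin N → J) × ι) ((Fin N → J) × ι) ℝ) :
    (S * Ght Φ s t G).trace = ∑ κ, if t ≤ lv Φ κ then ptr S G κ κ / s ^ lv Φ κ else 0 := by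
  unfold Matrix.trace
  have h1 : ∀ j, (S * Ght Φ s t G).diag j = ∑ i, ∑ κ : Fin N → J, S j i *
      ((if t ≤ lv Φ κ then 1 / s ^ lv Φ κ else 0) * G (κ, i) (κ, j)) := by
    intro j
    rw [Matrix.diag_apply, Matrix.mul_apply]
    refine Finset.sum_congr rfl fun i _ => ?_
    unfold Ght
    rw [Matrix.of_apply, Finset.mul_sum]
  rw [Finset.sum_congr rfl fun j _ => h1 j]
  have h2 : ∀ κ : Fin N → J, (if t ≤ lv Φ κ then ptr S G κ κ / s ^ lv Φ κ else 0) =
      ∑ j, ∑ i, S j i * ((if t ≤ lv Φ κ then 1 / s ^ lv Φ κ else 0) * G (κ, i) (κ, j)) := by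
    intro κ
    unfold ptr
    rw [Matrix.of_apply, Finset.sum_comm]
    split_ifs
    · rw [Finset.sum_div]
      refine Finset.sum_congr rfl fun j _ => ?_
      rw [Finset.sum_div]
      refine Finset.sum_congr rfl fun i _ => ?_
      ring
    · simp
  rw [Finset.sum_congr rfl fun κ _ => h2 κ]
  symm
  rw [Finset.sum_comm]
  refine Finset.sum_congr rfl fun j _ => ?_
  rw [Finset.sum_comm]

theorem hs_Ght_le [Nonempty Sg] (Φ : Bas Sg J) {s : ℝ} (h : 0 < s)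
    (hQs : (Fintype.card Sg : ℝ) ≤ s ^ 2) {N : ℕ} (t : ℕ)
    (G : Matrix ((Fin N → J) × ι) ((Fin N → J) × ι) ℝ) :
    hs (Ght Φ s t G) ≤ 2 ^ N * ((Fintype.card Sg : ℝ) / s ^ 2) ^ t * hs G := by
  have h1 : ∀ i j, Ght Φ s t G i j ^ 2 ≤ (2 ^ N * ((Fintype.card Sg : ℝ) / s ^ 2) ^ t) *
      ∑ κ, G (κ, i) (κ, j) ^ 2 := by
    intro i j
    unfold Ght
    rw [Matrix.of_apply]
    refine (Finset.sum_mul_sq_le_sq_mul_sq _ _ _).trans ?_
    refine mul_le_mul_of_nonneg_right ?_ (Finset.sum_nonneg fun _ _ => sq_nonneg _)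
    refine le_trans (le_of_eq ?_) (sum_high Φ h hQs N t)
    refine Finset.sum_congr rfl fun κ _ => ?_
    split_ifs <;> ring
  have h2 : ∑ i, ∑ j, ∑ κ, G (κ, i) (κ, j) ^ 2 ≤ hs G := by
    unfold hs
    rw [Fintype.sum_prod_type]
    have h3 : ∑ i, ∑ j, ∑ κ, G (κ, i) (κ, j) ^ 2 = ∑ κ, ∑ i, ∑ j, G (κ, i) (κ, j) ^ 2 := by
      have : ∀ i, ∑ j, ∑ κ, G (κ, i) (κ, j) ^ 2 = ∑ κ, ∑ j, G (κ, i) (κ, j) ^ 2 :=
        fun i => Finset.sum_comm
      rw [Finset.sum_congr rfl fun i _ => this i, Finset.sum_comm]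
    rw [h3]
    refine Finset.sum_le_sum fun κ _ => Finset.sum_le_sum fun i _ => ?_
    rw [Fintype.sum_prod_type]
    exact Finset.single_le_sum (f := fun κ' => ∑ j, G (κ, i) (κ', j) ^ 2)
      (fun κ' _ => Finset.sum_nonneg fun _ _ => sq_nonneg _) (Finset.mem_univ κ)
  have h4 : hs (Ght Φ s t G) ≤ (2 ^ N * ((Fintype.card Sg : ℝ) / s ^ 2) ^ t) *
      ∑ i, ∑ j, ∑ κ, G (κ, i) (κ, j) ^ 2 := by
    unfold hs
    rw [Finset.mul_sum]
    refine Finset.sum_le_sum fun i _ => ?_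
    rw [Finset.mul_sum]
    exact Finset.sum_le_sum fun j _ => h1 i j
  exact h4.trans (mul_le_mul_of_nonneg_left h2 (by positivity))

end

end Pool.Agent.H49.SDP
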