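import Pool.Agent.H49.SDP.CellNorm
import Pool.Agent.H49.SDP.Targets

/-!
# MP_c62aed_lc, semidefinite relaxations: the inequality on a rectangle, general form (helper49)
-/

set_option autoImplicit false

namespace Pool.Agent.H49.SDP

open Matrix
open Pool.Agent.H96.KX (PairInd kap)

section

variable {H B Sg J : Type} [Fintype H] [Fintype B] [Fintype Sg] [DecidableEq Sg] [DecidableEq H]
  [Fintype J] [DecidableEq J] {ι : Type} [Fintype ι]

/-- the estimate on a rectangle -/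
theorem cell_main [Nonempty Sg] [Nonempty H] [Nonempty B] (Φ : Bas Sg J) {s : ℝ} (hs1 : 1 ≤ s)
    (hh : Hsh H B Sg) (hsH : (s - 1) ^ 2 * (Fintype.card Sg : ℝ) ≤ 2 * Fintype.card H)
    (hQs : (Fintype.card Sg : ℝ) ≤ s ^ 2) {N t : ℕ} {Mx m σ : ℝ} (hM0 : 0 ≤ Mx)
    (hm0 : 0 ≤ m) (hσ : 0 < σ) (hσ1 : σ ≤ 1) (D : (Fin N → Sg) → ℝ) (hDM : ∀ z, |D z| ≤ Mx)
    (hDp : ∀ c : (Fin N → J) → ℝ, (∀ κ, t ≤ lv Φ κ → c κ = 0) →
      0 ≤ ∑ z, D z * (∑ κ, c κ * ∏ i, Φ.φ (κ i) (z i)) ^ 2)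
    (A : Finset (Fin N → H)) (X : Finset (Fin N → B))
    (L : (Fin N → H) → Matrix ι ι ℝ) (S : (Fin N → B) → Matrix ι ι ℝ)
    (hL : ∀ a, (L a).PosSemidef) (hS : ∀ b, (S b).PosSemidef)
    (hLS : ∀ a ∈ A, ∀ b ∈ X, (L a * S b).trace ≤ m) :
    -(m * (2 * Mx * σ ^ 2 * ((A.card : ℝ) * X.card) + 2 * (Mx * Real.sqrt (8 ^ N *
      ((Fintype.card Sg : ℝ) / s ^ 2) ^ t * ((Fintype.card H : ℝ) * Fintype.card B) ^ N)) *
      (Fintype.card ι : ℝ) / σ ^ 3 * Real.sqrt ((A.card : ℝ) * X.card))) ≤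
      ∑ a ∈ A, ∑ b ∈ X, D (apv hh a b) * (L a * S b).trace := by
  classical
  have hs0 : 0 < s := by linarith
  have hDp' : ∀ c : (Fin N → J) → ℝ, (∀ κ, t ≤ lv Φ κ → c κ = 0) →
      0 ≤ ∑ z, D z * (∑ κ, c κ * Psi Φ s κ z) ^ 2 := by
    intro c hc
    have h1 := hDp (fun κ => c κ / ∏ i, Φ.w s (κ i)) (fun κ hκ => by rw [hc κ hκ, zero_div])
    refine h1.trans (le_of_eq ?_)
    refine Finset.sum_congr rfl fun z _ => ?_
    congr 2
    refine Finset.sum_congr rfl fun κ _ => ?_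
    unfold Psi Bas.ψ
    rw [Finset.prod_div_distrib]
    ring
  rcases X.eq_empty_or_nonempty with hX | hX
  · subst hX
    simp
  have hXc : 0 < (X.card : ℝ) := by exact_mod_cast hX.card_pos
  obtain ⟨W, hW⟩ : ∃ W : ℝ, W = 2 * Mx * σ ^ 2 * ((A.card : ℝ) * X.card) +
      2 * (Mx * Real.sqrt (8 ^ N *
      ((Fintype.card Sg : ℝ) / s ^ 2) ^ t * ((Fintype.card H : ℝ) * Fintype.card B) ^ N)) *
      (Fintype.card ι : ℝ) / σ ^ 3 * Real.sqrt ((A.card : ℝ) * X.card) := ⟨_, rfl⟩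
  rw [← hW]
  have hW0 : 0 ≤ W := by rw [hW]; positivity
  obtain ⟨K, hK⟩ : ∃ K, K = ∑ a ∈ A, (L a).trace := ⟨_, rfl⟩
  have hK0 : 0 ≤ K := by
    rw [hK]
    exact Finset.sum_nonneg fun a _ => trace_nonneg (hL a)
  have hLK : ∀ a ∈ A, (L a).trace ≤ K := by
    intro a ha
    rw [hK]
    exact Finset.single_le_sum (f := fun a => (L a).trace) (fun a _ => trace_nonneg (hL a)) ha
  have main : ∀ ε : ℝ, 0 < ε → -((m + ε * K) * W) - ε * (Mx * K * X.card) ≤
      ∑ a ∈ A, ∑ b ∈ X, D (apv hh a b) * (L a * S b).trace := by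
    intro ε hε
    obtain ⟨P, hP⟩ : ∃ P : Matrix ι ι ℝ, P = (1 / (X.card : ℝ)) •
        ∑ b ∈ X, (S b + ε • (1 : Matrix ι ι ℝ)) := ⟨_, rfl⟩
    have hPsum : ∑ b ∈ X, (S b + ε • (1 : Matrix ι ι ℝ)) = (X.card : ℝ) • P := by
      rw [hP, smul_smul, mul_one_div_cancel hXc.ne', one_smul]
    have hPd : P.PosDef := by
      have h1 : P = (1 / (X.card : ℝ)) • ∑ b ∈ X, S b + ε • (1 : Matrix ι ι ℝ) := by
        rw [hP, Finset.sum_add_distrib, Finset.sum_const, smul_add, ← Nat.cast_smul_eq_nsmul ℝ,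
          smul_smul, smul_smul, one_div_mul_cancel hXc.ne', one_mul]
      rw [h1]
      refine Matrix.PosDef.posSemidef_add ?_ ?_
      · exact Matrix.PosSemidef.smul (Matrix.posSemidef_sum _ fun b _ => hS b) (by positivity)
      · exact Matrix.PosDef.one.smul hε
    obtain ⟨Y, Z, hYs, hZs, hYZ, hZY, hZPZ⟩ := exists_change hPd
    have htr : ∀ a b, ((Y * L a * Yᵀ) * (Z * (S b + ε • (1 : Matrix ι ι ℝ)) * Zᵀ)).trace =
        (L a * S b).trace + ε * (L a).trace := by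
      intro a b
      have h1 : Y * L a * Yᵀ * (Z * (S b + ε • (1 : Matrix ι ι ℝ)) * Zᵀ) =
          Y * (L a * (S b + ε • (1 : Matrix ι ι ℝ))) * Z := by
        rw [hYs, hZs]
        calc Y * L a * Y * (Z * (S b + ε • (1 : Matrix ι ι ℝ)) * Z) =
            Y * L a * (Y * Z) * (S b + ε • (1 : Matrix ι ι ℝ)) * Z := by
              simp only [Matrix.mul_assoc]
          _ = Y * (L a * (S b + ε • (1 : Matrix ι ι ℝ))) * Z := by
              rw [hYZ, Matrix.mul_one]
              simp only [Matrix.mul_assoc]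
      rw [h1, Matrix.trace_mul_comm, ← Matrix.mul_assoc, hZY, Matrix.one_mul, Matrix.mul_add,
        Matrix.trace_add, Matrix.mul_smul, Matrix.mul_one, Matrix.trace_smul, smul_eq_mul]
    have key := cell_norm Φ hs1 hh hsH hQs hM0 (by positivity : 0 ≤ m + ε * K) hσ hσ1 D hDM hDp'
      A X hX (fun a => Y * L a * Yᵀ) (fun b => Z * (S b + ε • (1 : Matrix ι ι ℝ)) * Zᵀ)
      (fun a => psd_conj (hL a) Y)
      (fun b => psd_conj ((hS b).add (Matrix.PosDef.one.smul hε).posSemidef) Z)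
      (by rw [← Finset.sum_mul, ← Finset.mul_sum, hPsum, Matrix.mul_smul, Matrix.smul_mul, hZs,
        hZPZ])
      (by
        intro a ha b hb
        rw [htr]
        have h1 := hLS a ha b hb
        have h2 := mul_le_mul_of_nonneg_left (hLK a ha) hε.le
        linarith)
    rw [← hW] at key
    have h3 : ∑ a ∈ A, ∑ b ∈ X, D (apv hh a b) *
        ((Y * L a * Yᵀ) * (Z * (S b + ε • (1 : Matrix ι ι ℝ)) * Zᵀ)).trace =
        ∑ a ∈ A, ∑ b ∈ X, D (apv hh a b) * (L a * S b).trace +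
        ∑ a ∈ A, ∑ b ∈ X, D (apv hh a b) * (ε * (L a).trace) := by
      rw [← Finset.sum_add_distrib]
      refine Finset.sum_congr rfl fun a _ => ?_
      rw [← Finset.sum_add_distrib]
      refine Finset.sum_congr rfl fun b _ => ?_
      rw [htr]
      ring
    have h4 : ∑ a ∈ A, ∑ b ∈ X, D (apv hh a b) * (ε * (L a).trace) ≤ ε * (Mx * K * X.card) := by
      have h5 : ∀ a ∈ A, ∑ b ∈ X, D (apv hh a b) * (ε * (L a).trace) ≤
          X.card * (Mx * (ε * (L a).trace)) := by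
        intro a _
        have h6 : ∀ b ∈ X, D (apv hh a b) * (ε * (L a).trace) ≤ Mx * (ε * (L a).trace) := by
          intro b _
          refine mul_le_mul_of_nonneg_right ((le_abs_self _).trans (hDM _)) ?_
          exact mul_nonneg hε.le (trace_nonneg (hL a))
        refine (Finset.sum_le_sum h6).trans (le_of_eq ?_)
        rw [Finset.sum_const, nsmul_eq_mul]
      refine (Finset.sum_le_sum h5).trans (le_of_eq ?_)
      rw [← Finset.mul_sum, ← Finset.mul_sum, ← Finset.mul_sum, ← hK]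
      ring
    rw [h3] at key
    linarith
  -- the limit
  by_contra hcon
  push_neg at hcon
  obtain ⟨V, hV⟩ : ∃ V, V = ∑ a ∈ A, ∑ b ∈ X, D (apv hh a b) * (L a * S b).trace := ⟨_, rfl⟩
  rw [← hV] at hcon main
  obtain ⟨Z0, hZ0⟩ : ∃ Z0, Z0 = K * W + Mx * K * X.card := ⟨_, rfl⟩
  have hZ00 : 0 ≤ Z0 := by rw [hZ0]; positivity
  have h1 := main ((-(m * W) - V) / (2 * (Z0 + 1))) (by
    apply div_pos
    · linarith
    · positivity)
  obtain ⟨e, he⟩ : ∃ e, e = (-(m * W) - V) / (2 * (Z0 + 1)) := ⟨_, rfl⟩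
  rw [← he] at h1
  have h2 : e * (Z0 + 1) = (-(m * W) - V) / 2 := by
    rw [he]
    field_simp
  have h3 : 0 < e := by
    rw [he]
    apply div_pos
    · linarith
    · positivity
  have h4 : -((m + e * K) * W) - e * (Mx * K * X.card) = -(m * W) - e * Z0 := by
    rw [hZ0]
    ring
  rw [h4] at h1
  nlinarith

end

theorem pf_CELL : S_CELL := by
  intro H U Z J _ _ _ _ _ _ _ _ _ h hPI hQH Φ N t D Mx hDM hDp r f g hf hg A X m σ hm hσ hσ1 hfg
  classical
  have hQ : 0 < (Fintype.card Z : ℝ) := by exact_mod_cast Fintype.card_pos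
  have hH : 0 < (Fintype.card H : ℝ) := by exact_mod_cast Fintype.card_pos
  have hM0 : 0 ≤ Mx := by
    obtain ⟨z⟩ : Nonempty (Fin N → Z) := inferInstance
    exact (abs_nonneg _).trans (hDM z)
  obtain ⟨s, hs⟩ : ∃ s, s = Real.sqrt ((Fintype.card H : ℝ) / Fintype.card Z) := ⟨_, rfl⟩
  have hQ1 : (1 : ℝ) ≤ Fintype.card Z := by
    have : 1 ≤ Fintype.card Z := Fintype.card_pos
    exact_mod_cast this
  have hs2 : s ^ 2 = (Fintype.card H : ℝ) / Fintype.card Z := by
    rw [hs, Real.sq_sqrt (by positivity)]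
  have hs0 : 0 ≤ s := by rw [hs]; exact Real.sqrt_nonneg _
  have hQs : (Fintype.card Z : ℝ) ≤ s ^ 2 := by
    rw [hs2, le_div_iff₀ hQ, ← sq]
    exact hQH
  have hs1 : 1 ≤ s := by
    have h1 : 1 ≤ s ^ 2 := hQ1.trans hQs
    nlinarith
  have hsH : (s - 1) ^ 2 * (Fintype.card Z : ℝ) ≤ 2 * Fintype.card H := by
    have h1 : (s - 1) ^ 2 ≤ s ^ 2 := by nlinarith
    have h2 : (s - 1) ^ 2 * (Fintype.card Z : ℝ) ≤ s ^ 2 * Fintype.card Z :=
      mul_le_mul_of_nonneg_right h1 hQ.le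
    rw [hs2, div_mul_cancel₀ _ hQ.ne'] at h2
    linarith
  let hh : Hsh H U Z :=
    { ap := h
      unif := by
        intro a z
        have h1 := hPI.1 a z
        have h2 : ((Finset.univ.filter (fun u => h a u = z)).card : ℝ) * Fintype.card Z =
            Fintype.card U := by exact_mod_cast h1
        rw [Finset.sum_boole, mul_comm]
        exact h2
      pair := by
        intro a a' haa z
        have h1 := hPI.2 a a' haa z
        have h2 : ((Finset.univ.filter (fun u => h a u = z ∧ h a' u = z)).card : ℝ) *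
            (Fintype.card Z : ℝ) ^ 2 = Fintype.card U := by exact_mod_cast h1
        have h3 : ∀ u, (if h a u = z then (1 : ℝ) else 0) * (if h a' u = z then 1 else 0) =
            if h a u = z ∧ h a' u = z then (1 : ℝ) else 0 := by
          intro u
          by_cases c1 : h a u = z
          · by_cases c2 : h a' u = z
            · simp [c1, c2]
            · simp [c2]
          · simp [c1]
        rw [Finset.sum_congr rfl fun u _ => h3 u, Finset.sum_boole, mul_comm]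
        exact h2 }
  have key := cell_main Φ hs1 hh hsH hQs hM0 hm hσ hσ1 D hDM hDp A X f g hf hg hfg
  have hkap : 8 ^ N * ((Fintype.card Z : ℝ) / s ^ 2) ^ t *
      ((Fintype.card H : ℝ) * Fintype.card U) ^ N = 2 ^ N * kap H U Z N t := by
    have h8 : (8 : ℝ) ^ N = 2 ^ N * 4 ^ N := by rw [← mul_pow]; norm_num
    have h9 : (Fintype.card Z : ℝ) / s ^ 2 = (Fintype.card Z : ℝ) ^ 2 / Fintype.card H := by
      rw [hs2]
      field_simp
    unfold kap
    rw [h8, h9]
    ring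
  rw [hkap, Fintype.card_fin] at key
  exact key

end Pool.Agent.H49.SDP
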