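import Pool.Agent.H49.SDP.Core

/-!
# MP_c62aed_lc, semidefinite relaxations: the estimate after the cut (helper49)
-/

set_option autoImplicit false

namespace Pool.Agent.H49.SDP

open Matrix

section

variable {H B Sg J : Type} [Fintype H] [Fintype B] [Fintype Sg] [DecidableEq Sg] [DecidableEq H]
  [Fintype J] [DecidableEq J] {ι : Type} [Fintype ι]

theorem sum_univ_ite {Y M : Type} [Fintype Y] [AddCommMonoid M] (A : Finset Y) (F G : Y → M)
    (h1 : ∀ a ∈ A, G a = F a) (h2 : ∀ a, a ∉ A → G a = 0) : ∑ a, G a = ∑ a ∈ A, F a := by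
  rw [← Finset.sum_subset (Finset.subset_univ A) (fun a _ ha => h2 a ha)]
  exact Finset.sum_congr rfl h1

/-- the part of the estimate after the cut -/
theorem cell_cut [Nonempty Sg] [Nonempty H] [Nonempty B] (Φ : Bas Sg J) {s : ℝ} (hs1 : 1 ≤ s)
    (hh : Hsh H B Sg) (hsH : (s - 1) ^ 2 * (Fintype.card Sg : ℝ) ≤ 2 * Fintype.card H)
    (hQs : (Fintype.card Sg : ℝ) ≤ s ^ 2) {N t : ℕ} {Mx τ P1 P2 P3 : ℝ} (hM0 : 0 ≤ Mx)
    (hτ : 0 < τ) (hP2 : 0 ≤ P2) (D : (Fin N → Sg) → ℝ) (hDM : ∀ z, |D z| ≤ Mx)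
    (hDp : ∀ c : (Fin N → J) → ℝ, (∀ κ, t ≤ lv Φ κ → c κ = 0) →
      0 ≤ ∑ z, D z * (∑ κ, c κ * Psi Φ s κ z) ^ 2)
    (F : (Fin N → H) → Matrix ι ι ℝ) (T : (Fin N → B) → Matrix ι ι ℝ)
    (hF : ∀ a, (F a).PosSemidef) (hT : ∀ b, (T b).PosSemidef)
    (h1 : ∑ b, ∑ a, (T b * F a).trace ≤ P1) (h2 : ∑ a, hs (F a) ≤ P2)
    (h3 : ∑ b, hs (T b) ≤ P3) :
    -(Mx * (τ * P1 + (1 + 1 / τ) * Real.sqrt ((8 ^ N * ((Fintype.card Sg : ℝ) / s ^ 2) ^ t *
      ((Fintype.card H : ℝ) * Fintype.card B) ^ N) * (P2 * P3)))) ≤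
      ∑ b, ∑ a, D (apv hh a b) * (T b * F a).trace := by
  have hQ := card_pos (Sg := Sg)
  have hH := card_pos (Sg := H)
  have hB : 0 < (Fintype.card B : ℝ) := by exact_mod_cast Fintype.card_pos
  have hs0 : 0 < s := by linarith
  obtain ⟨Q, hQd⟩ : ∃ Q : ℝ, Q = Fintype.card Sg := ⟨_, rfl⟩
  obtain ⟨h, hHd⟩ : ∃ h : ℝ, h = Fintype.card H := ⟨_, rfl⟩
  obtain ⟨β, hBd⟩ : ∃ β : ℝ, β = Fintype.card B := ⟨_, rfl⟩
  rw [← hQd] at hsH hQs hQ
  rw [← hHd] at hsH hH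
  rw [← hBd] at hB
  rw [← hQd, ← hHd, ← hBd]
  obtain ⟨G, hGp, hGv, hGs⟩ := rec_main Φ hs1 hh (by rw [← hQd, ← hHd]; exact hsH) N ι F hF
  rw [← hHd, ← hBd] at hGs
  obtain ⟨p, hp⟩ : ∃ p : (Fin N → B) → ℝ, p = fun b =>
    ∑ κ, if t ≤ lv Φ κ then 0 else ptr (T b) (G b) κ κ / s ^ lv Φ κ := ⟨_, rfl⟩
  obtain ⟨q, hq⟩ : ∃ q : (Fin N → B) → ℝ, q = fun b =>
    ∑ κ, if t ≤ lv Φ κ then ptr (T b) (G b) κ κ / s ^ lv Φ κ else 0 := ⟨_, rfl⟩
  have hgp : ∀ b, (ptr (T b) (G b)).PosSemidef := fun b => ptr_psd (hT b) (hGp b)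
  have hVT : ∀ b z, (T b * Vb hh F b z).trace =
      ∑ κ, ∑ κ', Psi Φ s κ z * Psi Φ s κ' z * ptr (T b) (G b) κ κ' :=
    fun b z => trace_Vb_psi Φ s (T b) (Vb hh F b z) (G b) z (fun i j => hGv b z i j)
  have hquad : ∀ b, -(Mx * Q ^ N * (τ * p b + (1 + 1 / τ) * q b)) ≤
      (Q / h) ^ N * ∑ a, D (apv hh a b) * (T b * F a).trace := by
    intro b
    have e1 := quad Φ hs0 hτ D hDM hDp (ptr (T b) (G b)) (hgp b)
    have e2 := sum_D_trace_Vb hh F (T b) b D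
    rw [Finset.sum_congr rfl fun z _ => by rw [hVT b z]] at e2
    rw [e2, ← hQd, ← hHd] at e1
    rw [hp, hq]
    exact e1
  have hpb : ∀ b, Q ^ N * p b ≤ (Q / h) ^ N * ∑ a, (T b * F a).trace := by
    intro b
    have e1 : Q ^ N * p b ≤ ∑ z, (T b * Vb hh F b z).trace := by
      have e2 : ∑ z, (T b * Vb hh F b z).trace = ∑ κ, Q ^ N * (ptr (T b) (G b) κ κ / s ^ lv Φ κ)
          := by
        rw [Finset.sum_congr rfl fun z _ => hVT b z, Finset.sum_comm]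
        refine Finset.sum_congr rfl fun κ _ => ?_
        rw [Finset.sum_comm]
        have e3 : ∀ κ', ∑ z, Psi Φ s κ z * Psi Φ s κ' z * ptr (T b) (G b) κ κ' =
            if κ = κ' then Q ^ N * (ptr (T b) (G b) κ κ' / s ^ lv Φ κ) else 0 := by
          intro κ'
          rw [← Finset.sum_mul, Psi_orth Φ hs0, ← hQd]
          split_ifs <;> ring
        rw [Finset.sum_congr rfl fun κ' _ => e3 κ', Finset.sum_ite_eq Finset.univ κ,
          if_pos (Finset.mem_univ _)]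
      rw [e2, hp]
      dsimp only
      rw [Finset.mul_sum]
      refine Finset.sum_le_sum fun κ _ => ?_
      split_ifs
      · rw [mul_zero]
        have := (hgp b).diag_nonneg (i := κ)
        positivity
      · exact le_rfl
    refine e1.trans (le_of_eq ?_)
    have e4 := sum_D_trace_Vb hh F (T b) b (fun _ => 1)
    simp only [one_mul] at e4
    rw [e4, ← hQd, ← hHd]
  have hpsum : h ^ N * ∑ b, p b ≤ P1 := by
    have e1 : Q ^ N * ∑ b, p b ≤ (Q / h) ^ N * ∑ b, ∑ a, (T b * F a).trace := by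
      rw [Finset.mul_sum, Finset.mul_sum]
      exact Finset.sum_le_sum fun b _ => hpb b
    have e2 : Q ^ N * ∑ b, p b ≤ (Q / h) ^ N * P1 :=
      e1.trans (mul_le_mul_of_nonneg_left h1 (by positivity))
    have e3 : Q ^ N * (h ^ N * ∑ b, p b) ≤ Q ^ N * P1 := by
      have e4 := mul_le_mul_of_nonneg_left e2 (by positivity : (0 : ℝ) ≤ h ^ N)
      refine le_trans (le_of_eq ?_) (e4.trans (le_of_eq ?_))
      · ring
      · rw [div_pow]
        field_simp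
    exact le_of_mul_le_mul_left e3 (by positivity)
  have hqup : (∑ b, q b) ^ 2 ≤ P3 * (2 ^ N * (Q / s ^ 2) ^ t * ∑ b, hs (G b)) := by
    have e1 : ∀ b, q b = (T b * Ght Φ s t (G b)).trace := by
      intro b
      rw [hq, trace_Ght]
    have e2 : (∑ b, q b) ^ 2 ≤ (∑ b, hs (T b)) * ∑ b, hs (Ght Φ s t (G b)) := by
      refine Finset.sum_sq_le_sum_mul_sum_of_sq_le_mul _ (fun b _ => hs_nonneg _)
        (fun b _ => hs_nonneg _) fun b _ => ?_
      rw [e1]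
      exact trace_mul_sq_le _ _
    refine e2.trans ?_
    refine mul_le_mul h3 ?_ (Finset.sum_nonneg fun b _ => hs_nonneg _)
      ((Finset.sum_nonneg fun b _ => hs_nonneg _).trans h3)
    rw [Finset.mul_sum]
    refine Finset.sum_le_sum fun b _ => ?_
    have := hs_Ght_le Φ hs0 (by rw [← hQd]; exact hQs) t (G b)
    rw [← hQd] at this
    exact this
  have hP3 : 0 ≤ P3 := (Finset.sum_nonneg fun b _ => hs_nonneg _).trans h3
  have hGs2 : h ^ N * ∑ b, hs (G b) ≤ 4 ^ N * β ^ N * P2 :=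
    hGs.trans (mul_le_mul_of_nonneg_left h2 (by positivity))
  have hqN : h ^ N * ∑ b, q b ≤ Real.sqrt ((8 ^ N * (Q / s ^ 2) ^ t * (h * β) ^ N) *
      (P2 * P3)) := by
    refine Real.le_sqrt_of_sq_le ?_
    have h8 : (8 : ℝ) ^ N = 2 ^ N * 4 ^ N := by rw [← mul_pow]; norm_num
    have e1 : (h ^ N * ∑ b, q b) ^ 2 ≤ (h ^ N) ^ 2 *
        (P3 * (2 ^ N * (Q / s ^ 2) ^ t * ∑ b, hs (G b))) := by
      rw [mul_pow]
      exact mul_le_mul_of_nonneg_left hqup (by positivity)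
    have e2 := mul_le_mul_of_nonneg_left hGs2
      (by positivity : (0 : ℝ) ≤ h ^ N * (P3 * (2 ^ N * (Q / s ^ 2) ^ t)))
    refine e1.trans (le_trans (le_of_eq ?_) (e2.trans (le_of_eq ?_)))
    · ring
    · rw [h8, mul_pow]
      ring
  have e1 : -(Mx * Q ^ N * (τ * ∑ b, p b + (1 + 1 / τ) * ∑ b, q b)) ≤
      (Q / h) ^ N * ∑ b, ∑ a, D (apv hh a b) * (T b * F a).trace := by
    have e2 : ∑ b, -(Mx * Q ^ N * (τ * p b + (1 + 1 / τ) * q b)) ≤
        ∑ b, (Q / h) ^ N * ∑ a, D (apv hh a b) * (T b * F a).trace :=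
      Finset.sum_le_sum fun b _ => hquad b
    have e3 : ∑ b, -(Mx * Q ^ N * (τ * p b + (1 + 1 / τ) * q b)) =
        -(Mx * Q ^ N * (τ * ∑ b, p b + (1 + 1 / τ) * ∑ b, q b)) := by
      rw [Finset.sum_neg_distrib, ← Finset.mul_sum, Finset.sum_add_distrib, ← Finset.mul_sum,
        ← Finset.mul_sum]
    rw [e3, ← Finset.mul_sum] at e2
    exact e2
  have e4 : Q ^ N * -(Mx * (τ * (h ^ N * ∑ b, p b) + (1 + 1 / τ) * (h ^ N * ∑ b, q b))) ≤
      Q ^ N * ∑ b, ∑ a, D (apv hh a b) * (T b * F a).trace := by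
    have e5 := mul_le_mul_of_nonneg_left e1 (by positivity : (0 : ℝ) ≤ h ^ N)
    refine le_trans (le_of_eq ?_) (e5.trans (le_of_eq ?_))
    · ring
    · rw [div_pow]
      field_simp
  have e5 := le_of_mul_le_mul_left e4 (by positivity)
  refine le_trans ?_ e5
  refine neg_le_neg (mul_le_mul_of_nonneg_left ?_ hM0)
  have e6 : 0 ≤ 1 + 1 / τ := by positivity
  have e7 := mul_le_mul_of_nonneg_left hqN e6
  have e8 := mul_le_mul_of_nonneg_left hpsum hτ.le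
  exact add_le_add e8 e7

end

end Pool.Agent.H49.SDP
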