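import Pool.Agent.H49.SDP.CellCut

/-!
# MP_c62aed_lc, semidefinite relaxations: the inequality on a rectangle (helper49)
-/

set_option autoImplicit false

namespace Pool.Agent.H49.SDP

open Matrix

section

variable {H B Sg J : Type} [Fintype H] [Fintype B] [Fintype Sg] [DecidableEq Sg] [DecidableEq H]
  [Fintype J] [DecidableEq J] {ι : Type} [Fintype ι]

/-- the estimate, normalised -/
theorem cell_norm [Nonempty Sg] [Nonempty H] [Nonempty B] (Φ : Bas Sg J) {s : ℝ} (hs1 : 1 ≤ s)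
    (hh : Hsh H B Sg) (hsH : (s - 1) ^ 2 * (Fintype.card Sg : ℝ) ≤ 2 * Fintype.card H)
    (hQs : (Fintype.card Sg : ℝ) ≤ s ^ 2) {N t : ℕ} {Mx m σ : ℝ} (hM0 : 0 ≤ Mx)
    (hm0 : 0 ≤ m) (hσ : 0 < σ) (hσ1 : σ ≤ 1) (D : (Fin N → Sg) → ℝ) (hDM : ∀ z, |D z| ≤ Mx)
    (hDp : ∀ c : (Fin N → J) → ℝ, (∀ κ, t ≤ lv Φ κ → c κ = 0) →
      0 ≤ ∑ z, D z * (∑ κ, c κ * Psi Φ s κ z) ^ 2)
    [DecidableEq ι] (A : Finset (Fin N → H)) (X : Finset (Fin N → B)) (hX : X.Nonempty)
    (L : (Fin N → H) → Matrix ι ι ℝ) (S : (Fin N → B) → Matrix ι ι ℝ)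
    (hL : ∀ a, (L a).PosSemidef) (hS : ∀ b, (S b).PosSemidef)
    (hS1 : ∑ b ∈ X, S b = (X.card : ℝ) • (1 : Matrix ι ι ℝ))
    (hLS : ∀ a ∈ A, ∀ b ∈ X, (L a * S b).trace ≤ m) :
    -(m * (2 * Mx * σ ^ 2 * ((A.card : ℝ) * X.card) + 2 * (Mx * Real.sqrt (8 ^ N *
      ((Fintype.card Sg : ℝ) / s ^ 2) ^ t * ((Fintype.card H : ℝ) * Fintype.card B) ^ N)) *
      (Fintype.card ι : ℝ) / σ ^ 3 * Real.sqrt ((A.card : ℝ) * X.card))) ≤
      ∑ a ∈ A, ∑ b ∈ X, D (apv hh a b) * (L a * S b).trace := by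
  obtain ⟨R, hRd⟩ : ∃ R : ℝ, R = Fintype.card ι := ⟨_, rfl⟩
  rw [← hRd]
  have hR0 : 0 ≤ R := by rw [hRd]; positivity
  have hXc : 0 < (X.card : ℝ) := by exact_mod_cast hX.card_pos
  have hA0 : (0 : ℝ) ≤ A.card := Nat.cast_nonneg _
  have hLtr : ∀ a ∈ A, (L a).trace ≤ m := by
    intro a ha
    have e1 : (X.card : ℝ) * (L a).trace = ∑ b ∈ X, (L a * S b).trace := by
      rw [← Matrix.trace_sum, ← Finset.mul_sum, hS1, Matrix.mul_smul, Matrix.mul_one,
        Matrix.trace_smul, smul_eq_mul]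
    have e2 : ∑ b ∈ X, (L a * S b).trace ≤ X.card * m := by
      refine (Finset.sum_le_sum fun b hb => hLS a ha b hb).trans (le_of_eq ?_)
      rw [Finset.sum_const, nsmul_eq_mul]
    rw [← e1] at e2
    exact le_of_mul_le_mul_left e2 hXc
  obtain ⟨F, hF⟩ : ∃ F : (Fin N → H) → Matrix ι ι ℝ, F = fun a => if a ∈ A then L a else 0 :=
    ⟨_, rfl⟩
  have hFA : ∀ a ∈ A, F a = L a := by
    intro a ha
    rw [hF]
    exact if_pos ha
  have hFn : ∀ a, a ∉ A → F a = 0 := by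
    intro a ha
    rw [hF]
    exact if_neg ha
  have hFp : ∀ a, (F a).PosSemidef := by
    intro a
    rw [hF]
    dsimp only
    split_ifs
    · exact hL a
    · exact Matrix.PosSemidef.zero
  have hF2 : ∑ a, hs (F a) ≤ A.card * m ^ 2 := by
    rw [sum_univ_ite A (fun a => hs (L a)) _ (fun a ha => by rw [hFA a ha])
      (fun a ha => by rw [hFn a ha]; simp [hs])]
    refine (Finset.sum_le_sum (g := fun _ => m ^ 2) fun a ha => ?_).trans (le_of_eq ?_)
    · refine (hs_le_trace_sq (hL a)).trans ?_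
      exact pow_le_pow_left₀ (trace_nonneg (hL a)) (hLtr a ha) 2
    · rw [Finset.sum_const, nsmul_eq_mul]
  obtain ⟨k0, hk0⟩ : ∃ k0, k0 = 1 / σ ^ 2 := ⟨_, rfl⟩
  have hk0p : 0 < k0 := by rw [hk0]; positivity
  have hStr : ∑ b ∈ X, (S b).trace = X.card * R := by
    rw [← Matrix.trace_sum, hS1, Matrix.trace_smul, Matrix.trace_one, smul_eq_mul, hRd]
  classical
  obtain ⟨X', hX'⟩ : ∃ X' : Finset (Fin N → B), X' = X.filter fun b => (S b).trace ≤ R * k0 :=
    ⟨_, rfl⟩
  obtain ⟨C, hC⟩ : ∃ C : Finset (Fin N → B), C = X.filter fun b => ¬ (S b).trace ≤ R * k0 :=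
    ⟨_, rfl⟩
  have hX'X : X' ⊆ X := by rw [hX']; exact Finset.filter_subset _ _
  obtain ⟨T, hT⟩ : ∃ T : (Fin N → B) → Matrix ι ι ℝ, T = fun b => if b ∈ X' then S b else 0 :=
    ⟨_, rfl⟩
  have hTX : ∀ b ∈ X', T b = S b := by
    intro b hb
    rw [hT]
    exact if_pos hb
  have hTn : ∀ b, b ∉ X' → T b = 0 := by
    intro b hb
    rw [hT]
    exact if_neg hb
  have hTp : ∀ b, (T b).PosSemidef := by
    intro b
    rw [hT]
    dsimp only
    split_ifs
    · exact hS b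
    · exact Matrix.PosSemidef.zero
  have hT2 : ∑ b, hs (T b) ≤ X.card * (R ^ 2 * k0) := by
    rw [sum_univ_ite X' (fun b => hs (S b)) _ (fun b hb => by rw [hTX b hb])
      (fun b hb => by rw [hTn b hb]; simp [hs])]
    have e1 : ∀ b ∈ X', hs (S b) ≤ R * k0 * (S b).trace := by
      intro b hb
      refine (hs_le_trace_sq (hS b)).trans ?_
      rw [sq]
      rw [hX', Finset.mem_filter] at hb
      exact mul_le_mul_of_nonneg_right hb.2 (trace_nonneg (hS b))
    refine (Finset.sum_le_sum e1).trans ?_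
    rw [← Finset.mul_sum]
    have e2 : ∑ b ∈ X', (S b).trace ≤ X.card * R := by
      rw [← hStr]
      exact Finset.sum_le_sum_of_subset_of_nonneg hX'X fun b _ _ => trace_nonneg (hS b)
    refine (mul_le_mul_of_nonneg_left e2 (by positivity)).trans (le_of_eq ?_)
    ring
  have hCc : (C.card : ℝ) ≤ X.card * σ ^ 2 := by
    rcases hR0.eq_or_lt with hR | hR
    · have hCe : C = ∅ := by
        rw [hC, Finset.filter_eq_empty_iff]
        intro b _ hb
        apply hb
        have hι : IsEmpty ι := by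
          rw [← Fintype.card_eq_zero_iff]
          have : (Fintype.card ι : ℝ) = 0 := by rw [← hRd, ← hR]
          exact_mod_cast this
        rw [← hR, zero_mul]
        unfold Matrix.trace
        rw [Finset.univ_eq_empty, Finset.sum_empty]
      rw [hCe, Finset.card_empty, Nat.cast_zero]
      positivity
    · have e1 : (C.card : ℝ) * (R * k0) ≤ ∑ b ∈ X, (S b).trace := by
        have e2 : ∑ b ∈ C, R * k0 ≤ ∑ b ∈ C, (S b).trace := by
          refine Finset.sum_le_sum fun b hb => ?_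
          rw [hC, Finset.mem_filter] at hb
          exact (not_le.1 hb.2).le
        rw [Finset.sum_const, nsmul_eq_mul] at e2
        exact e2.trans (Finset.sum_le_sum_of_subset_of_nonneg
          (by rw [hC]; exact Finset.filter_subset _ _) fun b _ _ => trace_nonneg (hS b))
      rw [hStr] at e1
      have e3 : R * ((C.card : ℝ) * k0) ≤ R * X.card := by linarith
      have e4 := le_of_mul_le_mul_left e3 hR
      rw [hk0, mul_one_div, div_le_iff₀ (by positivity)] at e4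
      exact e4
  have hTF : ∑ b, ∑ a, (T b * F a).trace ≤ m * (A.card * X.card) := by
    have e1 : ∀ b, ∑ a, (T b * F a).trace = ∑ a ∈ A, (T b * L a).trace := by
      intro b
      exact sum_univ_ite A _ _ (fun a ha => by rw [hFA a ha])
        (fun a ha => by rw [hFn a ha, Matrix.mul_zero, Matrix.trace_zero])
    rw [Finset.sum_congr rfl fun b _ => e1 b]
    rw [sum_univ_ite X' (fun b => ∑ a ∈ A, (S b * L a).trace) _
      (fun b hb => by rw [hTX b hb]) (fun b hb => by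
        rw [hTn b hb]
        refine Finset.sum_eq_zero fun a _ => ?_
        rw [Matrix.zero_mul, Matrix.trace_zero])]
    have e2 : ∑ b ∈ X', ∑ a ∈ A, (S b * L a).trace ≤ ∑ b ∈ X, ∑ a ∈ A, (S b * L a).trace :=
      Finset.sum_le_sum_of_subset_of_nonneg hX'X fun b _ _ =>
        Finset.sum_nonneg fun a _ => trace_mul_nonneg (hS b) (hL a)
    refine e2.trans ?_
    have e3 : ∑ b ∈ X, ∑ a ∈ A, (S b * L a).trace ≤ ∑ b ∈ X, ∑ a ∈ A, m := by
      refine Finset.sum_le_sum fun b hb => Finset.sum_le_sum fun a ha => ?_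
      rw [Matrix.trace_mul_comm]
      exact hLS a ha b hb
    refine e3.trans (le_of_eq ?_)
    rw [Finset.sum_const, Finset.sum_const, nsmul_eq_mul, nsmul_eq_mul]
    ring
  have hτ : 0 < σ ^ 2 := by positivity
  have key := cell_cut Φ hs1 hh hsH hQs hM0 hτ (by positivity : 0 ≤ A.card * m ^ 2) D hDM hDp F T
    hFp hTp hTF hF2 hT2
  -- the sum over the rectangle
  have hdec : ∑ a ∈ A, ∑ b ∈ X, D (apv hh a b) * (L a * S b).trace =
      ∑ b, ∑ a, D (apv hh a b) * (T b * F a).trace +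
      ∑ b ∈ C, ∑ a ∈ A, D (apv hh a b) * (L a * S b).trace := by
    have e1 : ∀ b, ∑ a, D (apv hh a b) * (T b * F a).trace =
        ∑ a ∈ A, D (apv hh a b) * (T b * L a).trace := by
      intro b
      exact sum_univ_ite A _ _ (fun a ha => by rw [hFA a ha])
        (fun a ha => by rw [hFn a ha, Matrix.mul_zero, Matrix.trace_zero, mul_zero])
    rw [Finset.sum_congr rfl fun b _ => e1 b]
    rw [sum_univ_ite X' (fun b => ∑ a ∈ A, D (apv hh a b) * (L a * S b).trace) _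
      (fun b hb => by
        rw [hTX b hb]
        refine Finset.sum_congr rfl fun a _ => ?_
        rw [Matrix.trace_mul_comm])
      (fun b hb => by
        rw [hTn b hb]
        refine Finset.sum_eq_zero fun a _ => ?_
        rw [Matrix.zero_mul, Matrix.trace_zero, mul_zero])]
    rw [Finset.sum_comm, hX', hC, Finset.sum_filter_add_sum_filter_not]
  have hcut : -(m * (Mx * σ ^ 2 * (A.card * X.card))) ≤
      ∑ b ∈ C, ∑ a ∈ A, D (apv hh a b) * (L a * S b).trace := by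
    have e1 : ∑ b ∈ C, ∑ a ∈ A, -(Mx * m) ≤
        ∑ b ∈ C, ∑ a ∈ A, D (apv hh a b) * (L a * S b).trace := by
      refine Finset.sum_le_sum fun b hb => Finset.sum_le_sum fun a ha => ?_
      have hbX : b ∈ X := by
        rw [hC] at hb
        exact (Finset.mem_filter.1 hb).1
      have e2 := hLS a ha b hbX
      have e3 : 0 ≤ (L a * S b).trace := trace_mul_nonneg (hL a) (hS b)
      have e4 := (abs_le.1 (hDM (apv hh a b))).1
      have e5 : -Mx * (L a * S b).trace ≤ D (apv hh a b) * (L a * S b).trace :=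
        mul_le_mul_of_nonneg_right e4 e3
      have e6 : Mx * (L a * S b).trace ≤ Mx * m := mul_le_mul_of_nonneg_left e2 hM0
      linarith
    rw [Finset.sum_const, Finset.sum_const, nsmul_eq_mul, nsmul_eq_mul] at e1
    refine le_trans ?_ e1
    have e7 : (A.card : ℝ) * (Mx * m) * C.card ≤ (A.card : ℝ) * (Mx * m) * (X.card * σ ^ 2) :=
      mul_le_mul_of_nonneg_left hCc (by positivity)
    linarith
  rw [hdec]
  refine le_trans ?_ (add_le_add key hcut)
  have hsq : Real.sqrt ((8 ^ N * ((Fintype.card Sg : ℝ) / s ^ 2) ^ t *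
      ((Fintype.card H : ℝ) * Fintype.card B) ^ N) * ((A.card * m ^ 2) * (X.card * (R ^ 2 * k0))))
      = Real.sqrt (8 ^ N * ((Fintype.card Sg : ℝ) / s ^ 2) ^ t *
      ((Fintype.card H : ℝ) * Fintype.card B) ^ N) * (m * R / σ) *
      Real.sqrt (A.card * X.card) := by
    rw [Real.sqrt_mul (by positivity)]
    have e1 : (A.card * m ^ 2) * (X.card * (R ^ 2 * k0)) =
        (m * R / σ) ^ 2 * ((A.card : ℝ) * X.card) := by
      rw [hk0]
      field_simp
    rw [e1, Real.sqrt_mul (show 0 ≤ (m * R / σ) ^ 2 by positivity),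
      Real.sqrt_sq (by positivity)]
    ring
  rw [hsq]
  obtain ⟨K, hK⟩ : ∃ K, K = Real.sqrt (8 ^ N * ((Fintype.card Sg : ℝ) / s ^ 2) ^ t *
      ((Fintype.card H : ℝ) * Fintype.card B) ^ N) := ⟨_, rfl⟩
  obtain ⟨W, hW⟩ : ∃ W, W = Real.sqrt ((A.card : ℝ) * X.card) := ⟨_, rfl⟩
  rw [← hK, ← hW]
  have hK0 : 0 ≤ K := by rw [hK]; exact Real.sqrt_nonneg _
  have hW0 : 0 ≤ W := by rw [hW]; exact Real.sqrt_nonneg _
  have e1 : 1 + 1 / σ ^ 2 ≤ 2 / σ ^ 2 := by
    have : 1 ≤ 1 / σ ^ 2 := by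
      rw [le_div_iff₀ hτ, one_mul]
      exact pow_le_one₀ hσ.le hσ1
    have e2 : 2 / σ ^ 2 = 1 / σ ^ 2 + 1 / σ ^ 2 := by ring
    linarith
  have e3 : (1 + 1 / σ ^ 2) * (K * (m * R / σ) * W) ≤ 2 / σ ^ 2 * (K * (m * R / σ) * W) :=
    mul_le_mul_of_nonneg_right e1 (by positivity)
  have e4 : 2 / σ ^ 2 * (K * (m * R / σ) * W) = m * (2 * K * R / σ ^ 3 * W) := by
    field_simp
  rw [e4] at e3
  have e5 := mul_le_mul_of_nonneg_left e3 hM0
  have e6 : m * (2 * (Mx * K) * R / σ ^ 3 * W) = Mx * (m * (2 * K * R / σ ^ 3 * W)) := by ring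
  have e7 : m * (2 * Mx * σ ^ 2 * (A.card * X.card) + 2 * (Mx * K) * R / σ ^ 3 * W) =
      m * (Mx * σ ^ 2 * (A.card * X.card)) + Mx * (σ ^ 2 * (m * (A.card * X.card))) +
      Mx * (m * (2 * K * R / σ ^ 3 * W)) := by
    rw [← e6]
    ring
  rw [e7]
  have e8 : Mx * (σ ^ 2 * (m * (A.card * X.card)) + (1 + 1 / σ ^ 2) * (K * (m * R / σ) * W)) =
      Mx * (σ ^ 2 * (m * (A.card * X.card))) + Mx * ((1 + 1 / σ ^ 2) * (K * (m * R / σ) * W)) := by
    ring
  rw [e8]
  linarith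

end

end Pool.Agent.H49.SDP
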