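import Pool.Agent.H49.SDP.High

/-!
# MP_c62aed_lc, semidefinite relaxations: auxiliary identities (helper49)
-/

set_option autoImplicit false

namespace Pool.Agent.H49.SDP

open Matrix

section

variable {ι : Type} [Fintype ι]

theorem hs_le_trace_sq {A : Matrix ι ι ℝ} (hA : A.PosSemidef) : hs A ≤ A.trace ^ 2 := by
  obtain ⟨Y, hY, hYY⟩ := psd_sqrt hA
  have hYs : Yᵀ = Y := psd_symm hY
  have hAY : ∀ i j, A i j = ∑ r, Y i r * Y j r := by
    intro i j
    rw [← hYY, Matrix.mul_apply]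
    refine Finset.sum_congr rfl fun r _ => ?_
    congr 1
    conv_lhs => rw [← hYs]
    rfl
  have h1 : ∀ i j, A i j ^ 2 ≤ A i i * A j j := by
    intro i j
    rw [hAY i j, hAY i i, hAY j j]
    refine (Finset.sum_mul_sq_le_sq_mul_sq _ _ _).trans (le_of_eq ?_)
    congr 1
    · exact Finset.sum_congr rfl fun r _ => by ring
    · exact Finset.sum_congr rfl fun r _ => by ring
  have h2 : A.trace ^ 2 = ∑ i, ∑ j, A i i * A j j := by
    rw [sq]
    unfold Matrix.trace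
    rw [Finset.sum_mul]
    refine Finset.sum_congr rfl fun i _ => ?_
    rw [Finset.mul_sum]
    rfl
  rw [h2]
  exact Finset.sum_le_sum fun i _ => Finset.sum_le_sum fun j _ => h1 i j

theorem trace_nonneg {A : Matrix ι ι ℝ} (hA : A.PosSemidef) : 0 ≤ A.trace := by
  classical
  have h := trace_mul_nonneg hA (Matrix.PosSemidef.one (n := ι) (R := ℝ))
  rwa [Matrix.mul_one] at h

end

section

variable {H B Sg J : Type} [Fintype H] [Fintype B] [Fintype Sg] [DecidableEq Sg] [DecidableEq H]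
  [Fintype J] [DecidableEq J]

/-- the values of the hash functions -/
def apv (hh : Hsh H B Sg) {N : ℕ} (a : Fin N → H) (b : Fin N → B) : Fin N → Sg :=
  fun i => hh.ap (a i) (b i)

theorem sum_ind {N : ℕ} (y : Fin N → Sg) (F : (Fin N → Sg) → ℝ) :
    ∑ z, F z * (∏ i, if y i = z i then (1 : ℝ) else 0) = F y := by
  rw [Finset.sum_eq_single y]
  · simp
  · intro z _ hz
    obtain ⟨i, hi⟩ := Function.ne_iff.1 hz
    rw [Finset.prod_eq_zero (Finset.mem_univ i) (if_neg (Ne.symm hi)), mul_zero]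
  · intro h
    exact absurd (Finset.mem_univ _) h

theorem sum_unif (hh : Hsh H B Sg) {N : ℕ} (a : Fin N → H) (F : (Fin N → Sg) → ℝ) :
    (Fintype.card Sg : ℝ) ^ N * ∑ b, F (apv hh a b) = (Fintype.card B : ℝ) ^ N * ∑ z, F z := by
  have h1 : ∀ b, F (apv hh a b) =
      ∑ z, F z * (∏ i, if hh.ap (a i) (b i) = z i then (1 : ℝ) else 0) :=
    fun b => (sum_ind (apv hh a b) F).symm
  rw [Finset.sum_congr rfl fun b _ => h1 b, Finset.sum_comm, Finset.mul_sum, Finset.mul_sum]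
  refine Finset.sum_congr rfl fun z _ => ?_
  rw [← Finset.mul_sum]
  have h2 : ∑ b : Fin N → B, ∏ i, (if hh.ap (a i) (b i) = z i then (1 : ℝ) else 0) =
      ∏ i, ∑ x : B, (if hh.ap (a i) x = z i then (1 : ℝ) else 0) := by
    rw [Finset.prod_univ_sum]
    simp
  have h3 : (Fintype.card Sg : ℝ) ^ N *
      ∏ i, ∑ x : B, (if hh.ap (a i) x = z i then (1 : ℝ) else 0) =
      (Fintype.card B : ℝ) ^ N := by
    have e1 : (Fintype.card Sg : ℝ) ^ N = ∏ i : Fin N, (Fintype.card Sg : ℝ) := by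
      rw [Finset.prod_const, Finset.card_univ, Fintype.card_fin]
    have e2 : (Fintype.card B : ℝ) ^ N = ∏ i : Fin N, (Fintype.card B : ℝ) := by
      rw [Finset.prod_const, Finset.card_univ, Fintype.card_fin]
    rw [e1, e2, ← Finset.prod_mul_distrib]
    exact Finset.prod_congr rfl fun i _ => hh.unif (a i) (z i)
  rw [h2]
  linear_combination F z * h3

variable {ι : Type} [Fintype ι]

theorem trace_Vb (hh : Hsh H B Sg) {N : ℕ} (f : (Fin N → H) → Matrix ι ι ℝ) (S : Matrix ι ι ℝ)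
    (b : Fin N → B) (z : Fin N → Sg) :
    (S * Vb hh f b z).trace = ((Fintype.card Sg : ℝ) / Fintype.card H) ^ N *
      ∑ a, (∏ i, if hh.ap (a i) (b i) = z i then (1 : ℝ) else 0) * (S * f a).trace := by
  unfold Vb
  rw [Matrix.mul_smul, Matrix.trace_smul, Finset.mul_sum, Matrix.trace_sum, smul_eq_mul]
  congr 1
  refine Finset.sum_congr rfl fun a _ => ?_
  rw [Matrix.mul_smul, Matrix.trace_smul, smul_eq_mul]

theorem sum_D_trace_Vb (hh : Hsh H B Sg) {N : ℕ} (f : (Fin N → H) → Matrix ι ι ℝ)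
    (S : Matrix ι ι ℝ) (b : Fin N → B) (D : (Fin N → Sg) → ℝ) :
    ∑ z, D z * (S * Vb hh f b z).trace = ((Fintype.card Sg : ℝ) / Fintype.card H) ^ N *
      ∑ a, D (apv hh a b) * (S * f a).trace := by
  have h1 : ∀ z, D z * (S * Vb hh f b z).trace = ((Fintype.card Sg : ℝ) / Fintype.card H) ^ N *
      ∑ a, (D z * ∏ i, if hh.ap (a i) (b i) = z i then (1 : ℝ) else 0) * (S * f a).trace := by
    intro z
    rw [trace_Vb, Finset.mul_sum, Finset.mul_sum, Finset.mul_sum]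
    refine Finset.sum_congr rfl fun a _ => ?_
    ring
  rw [Finset.sum_congr rfl fun z _ => h1 z, ← Finset.mul_sum, Finset.sum_comm]
  congr 1
  refine Finset.sum_congr rfl fun a _ => ?_
  rw [← Finset.sum_mul]
  congr 1
  exact sum_ind (apv hh a b) D

theorem trace_Vb_psi (Φ : Bas Sg J) (s : ℝ) {N : ℕ} (S V : Matrix ι ι ℝ)
    (G : Matrix ((Fin N → J) × ι) ((Fin N → J) × ι) ℝ) (z : Fin N → Sg)
    (hV : ∀ i j, ∑ κ, ∑ κ', Psi Φ s κ z * Psi Φ s κ' z * G (κ, i) (κ', j) = V i j) :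
    (S * V).trace = ∑ κ, ∑ κ', Psi Φ s κ z * Psi Φ s κ' z * ptr S G κ κ' := by
  have h1 : (S * V).trace = ∑ i, ∑ j, S j i * V i j := by
    unfold Matrix.trace
    rw [Finset.sum_comm]
    refine Finset.sum_congr rfl fun j _ => ?_
    rw [Matrix.diag_apply, Matrix.mul_apply]
  have h2 : ∀ κ κ', Psi Φ s κ z * Psi Φ s κ' z * ptr S G κ κ' =
      ∑ i, ∑ j, S j i * (Psi Φ s κ z * Psi Φ s κ' z * G (κ, i) (κ', j)) := by
    intro κ κ'
    unfold ptr
    rw [Matrix.of_apply, Finset.mul_sum]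
    refine Finset.sum_congr rfl fun i _ => ?_
    rw [Finset.mul_sum]
    refine Finset.sum_congr rfl fun j _ => ?_
    ring
  rw [h1, Finset.sum_congr rfl fun κ _ => Finset.sum_congr rfl fun κ' _ => h2 κ κ']
  have h3 : ∀ i j, S j i * V i j = ∑ κ, ∑ κ', S j i *
      (Psi Φ s κ z * Psi Φ s κ' z * G (κ, i) (κ', j)) := by
    intro i j
    rw [← hV, Finset.mul_sum]
    refine Finset.sum_congr rfl fun κ _ => ?_
    rw [Finset.mul_sum]
  rw [Finset.sum_congr rfl fun i _ => Finset.sum_congr rfl fun j _ => h3 i j]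
  have e1 : ∀ F : (Fin N → J) → (Fin N → J) → ι → ι → ℝ,
      ∑ i, ∑ j, ∑ κ, ∑ κ', F κ κ' i j = ∑ κ, ∑ κ', ∑ i, ∑ j, F κ κ' i j := by
    intro F
    have a1 : ∀ i, ∑ j, ∑ κ, ∑ κ', F κ κ' i j = ∑ κ, ∑ κ', ∑ j, F κ κ' i j := by
      intro i
      rw [Finset.sum_comm]
      refine Finset.sum_congr rfl fun κ _ => ?_
      rw [Finset.sum_comm]
    rw [Finset.sum_congr rfl fun i _ => a1 i, Finset.sum_comm]
    refine Finset.sum_congr rfl fun κ _ => ?_
    rw [Finset.sum_comm]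
  exact e1 _

end

end Pool.Agent.H49.SDP
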