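import Pool.Agent.H49.SDP.Step

/-!
# MP_c62aed_lc, semidefinite relaxations: average over the hash functions (helper49)
-/

set_option autoImplicit false

namespace Pool.Agent.H49.SDP

open Matrix

section

variable {H B Sg : Type} [Fintype H] [Fintype B] [Fintype Sg] [DecidableEq Sg] [DecidableEq H]
variable {ι : Type} [Fintype ι]

/-- the matrix for the value `b` of the block and the value `z` of the hash function -/
noncomputable def Mbz (hh : Hsh H B Sg) (G : H → Matrix ι ι ℝ) (b : B) (z : Sg) : Matrix ι ι ℝ :=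
  ((Fintype.card Sg : ℝ) / Fintype.card H) • ∑ a, (if hh.ap a b = z then (1 : ℝ) else 0) • G a

theorem Mbz_psd (hh : Hsh H B Sg) (G : H → Matrix ι ι ℝ) (hG : ∀ a, (G a).PosSemidef) (b : B)
    (z : Sg) : (Mbz hh G b z).PosSemidef := by
  unfold Mbz
  refine Matrix.PosSemidef.smul (Matrix.posSemidef_sum _ fun a _ => ?_) (by positivity)
  refine Matrix.PosSemidef.smul (hG a) ?_
  split_ifs <;> norm_num

theorem Mbz_avg [Nonempty Sg] (hh : Hsh H B Sg) (G : H → Matrix ι ι ℝ) (b : B) :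
    (1 / (Fintype.card Sg : ℝ)) • ∑ z, Mbz hh G b z = (1 / (Fintype.card H : ℝ)) • ∑ a, G a := by
  have hQ := card_pos (Sg := Sg)
  unfold Mbz
  rw [← Finset.smul_sum, Finset.sum_comm, smul_smul]
  have h1 : ∀ a, ∑ z, (if hh.ap a b = z then (1 : ℝ) else 0) • G a = G a := by
    intro a
    rw [← Finset.sum_smul, Finset.sum_ite_eq Finset.univ (hh.ap a b),
      if_pos (Finset.mem_univ _), one_smul]
  rw [Finset.sum_congr rfl fun a _ => h1 a]
  congr 1
  field_simp

theorem hs_avg_le [Nonempty H] (G : H → Matrix ι ι ℝ) :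
    hs ((1 / (Fintype.card H : ℝ)) • ∑ a, G a) ≤ (1 / (Fintype.card H : ℝ)) * ∑ a, hs (G a) := by
  have hH := card_pos (Sg := H)
  rw [hs_smul]
  refine (mul_le_mul_of_nonneg_left (hs_sum_le G) (by positivity)).trans (le_of_eq ?_)
  field_simp

theorem sum_diff_sq (m : Sg → ℝ) : ∑ x : Sg × Sg, (m x.1 - m x.2) ^ 2 =
    2 * (Fintype.card Sg : ℝ) * ∑ z, m z ^ 2 - 2 * (∑ z, m z) ^ 2 := by
  rw [Fintype.sum_prod_type]
  have h1 : ∀ z z' : Sg, (m z - m z') ^ 2 = m z ^ 2 - 2 * m z * m z' + m z' ^ 2 := by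
    intro z z'
    ring
  have h2 : ∀ z : Sg, ∑ z', (m z - m z') ^ 2 =
      (Fintype.card Sg : ℝ) * m z ^ 2 - 2 * m z * (∑ z', m z') + ∑ z', m z' ^ 2 := by
    intro z
    rw [Finset.sum_congr rfl fun z' _ => h1 z z', Finset.sum_add_distrib,
      Finset.sum_sub_distrib, Finset.sum_const, Finset.card_univ, nsmul_eq_mul, ← Finset.mul_sum]
  rw [Finset.sum_congr rfl fun z _ => h2 z, Finset.sum_add_distrib, Finset.sum_sub_distrib,
    Finset.sum_const, Finset.card_univ, nsmul_eq_mul, ← Finset.mul_sum, ← Finset.sum_mul,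
    ← Finset.mul_sum]
  ring

theorem sum_ind_sq [Nonempty Sg] (hh : Hsh H B Sg) (g : H → ℝ) (z : Sg) :
    (Fintype.card Sg : ℝ) ^ 2 * ∑ b, (∑ a, (if hh.ap a b = z then (1 : ℝ) else 0) * g a) ^ 2 =
    Fintype.card B * (∑ a, g a) ^ 2 +
      Fintype.card B * ((Fintype.card Sg : ℝ) - 1) * ∑ a, g a ^ 2 := by
  have hQ := card_pos (Sg := Sg)
  obtain ⟨c, hc⟩ : ∃ c : H → B → ℝ, c = fun a b => (if hh.ap a b = z then (1 : ℝ) else 0) :=
    ⟨_, rfl⟩
  have hcab : ∀ a b, (if hh.ap a b = z then (1 : ℝ) else 0) = c a b := fun a b => by rw [hc]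
  simp only [hcab]
  have h1 : ∀ b, (∑ a, c a b * g a) ^ 2 = ∑ a, ∑ a', (g a * g a') * (c a b * c a' b) := by
    intro b
    rw [sq, Finset.sum_mul]
    refine Finset.sum_congr rfl fun a _ => ?_
    rw [Finset.mul_sum]
    refine Finset.sum_congr rfl fun a' _ => ?_
    ring
  have h2 : ∀ a a', (Fintype.card Sg : ℝ) ^ 2 * ∑ b, c a b * c a' b =
      Fintype.card B + if a = a' then Fintype.card B * ((Fintype.card Sg : ℝ) - 1) else 0 := by
    intro a a'
    split_ifs with h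
    · subst h
      have h3 := hh.unif a z
      have h4 : ∀ b, c a b * c a b = (if hh.ap a b = z then (1 : ℝ) else 0) := by
        intro b
        rw [hc]
        dsimp only
        split_ifs <;> norm_num
      rw [Finset.sum_congr rfl fun b _ => h4 b]
      linear_combination (Fintype.card Sg : ℝ) * h3
    · have h3 := hh.pair a a' h z
      rw [add_zero, ← h3, hc]
  have h5 : ∑ b, (∑ a, c a b * g a) ^ 2 = ∑ a, ∑ a', (g a * g a') * ∑ b, c a b * c a' b := by
    rw [Finset.sum_congr rfl fun b _ => h1 b, Finset.sum_comm]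
    refine Finset.sum_congr rfl fun a _ => ?_
    rw [Finset.sum_comm]
    refine Finset.sum_congr rfl fun a' _ => ?_
    rw [Finset.mul_sum]
  rw [h5, Finset.mul_sum]
  have h6 : ∀ a, (Fintype.card Sg : ℝ) ^ 2 * ∑ a', (g a * g a') * ∑ b, c a b * c a' b =
      Fintype.card B * (g a * ∑ a', g a') +
        Fintype.card B * ((Fintype.card Sg : ℝ) - 1) * g a ^ 2 := by
    intro a
    rw [Finset.mul_sum]
    have h7 : ∀ a', (Fintype.card Sg : ℝ) ^ 2 * ((g a * g a') * ∑ b, c a b * c a' b) =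
        Fintype.card B * (g a * g a') +
        (if a = a' then Fintype.card B * ((Fintype.card Sg : ℝ) - 1) * (g a * g a') else 0) := by
      intro a'
      have := h2 a a'
      split_ifs at this ⊢ with h
      · linear_combination (g a * g a') * this
      · linear_combination (g a * g a') * this
    rw [Finset.sum_congr rfl fun a' _ => h7 a', Finset.sum_add_distrib,
      Finset.sum_ite_eq Finset.univ a, if_pos (Finset.mem_univ _), ← Finset.mul_sum,
      ← Finset.mul_sum, sq]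
  rw [Finset.sum_congr rfl fun a _ => h6 a, Finset.sum_add_distrib, ← Finset.mul_sum,
    ← Finset.mul_sum, ← Finset.sum_mul, sq]

theorem Mbz_diff [Nonempty Sg] [Nonempty H] (hh : Hsh H B Sg) (G : H → Matrix ι ι ℝ) :
    ∑ b, ∑ x : Sg × Sg, hs (Mbz hh G b x.1 - Mbz hh G b x.2) ≤
    (Fintype.card Sg : ℝ) ^ 2 * (2 * (Fintype.card Sg : ℝ) * Fintype.card B /
      (Fintype.card H : ℝ) ^ 2 * ∑ a, hs (G a)) := by
  have hQ := card_pos (Sg := Sg)
  have hH := card_pos (Sg := H)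
  have hQ1 : (1 : ℝ) ≤ Fintype.card Sg := by
    have : 1 ≤ Fintype.card Sg := Fintype.card_pos
    exact_mod_cast this
  -- the entries
  have hent : ∀ b z i j, Mbz hh G b z i j = ((Fintype.card Sg : ℝ) / Fintype.card H) *
      ∑ a, (if hh.ap a b = z then (1 : ℝ) else 0) * G a i j := by
    intro b z i j
    unfold Mbz
    rw [Matrix.smul_apply, smul_eq_mul, Matrix.sum_apply]
    rfl
  have hsum : ∀ b i j, ∑ z, Mbz hh G b z i j =
      ((Fintype.card Sg : ℝ) / Fintype.card H) * ∑ a, G a i j := by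
    intro b i j
    rw [Finset.sum_congr rfl fun z _ => hent b z i j, ← Finset.mul_sum, Finset.sum_comm]
    congr 1
    refine Finset.sum_congr rfl fun a _ => ?_
    rw [← Finset.sum_mul, Finset.sum_ite_eq Finset.univ (hh.ap a b),
      if_pos (Finset.mem_univ _), one_mul]
  have hij : ∀ i j, ∑ b, ∑ x : Sg × Sg, (Mbz hh G b x.1 i j - Mbz hh G b x.2 i j) ^ 2 ≤
      (Fintype.card Sg : ℝ) ^ 2 * (2 * (Fintype.card Sg : ℝ) * Fintype.card B /
      (Fintype.card H : ℝ) ^ 2) * ∑ a, G a i j ^ 2 := by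
    intro i j
    have e1 : ∀ b, ∑ x : Sg × Sg, (Mbz hh G b x.1 i j - Mbz hh G b x.2 i j) ^ 2 =
        2 * (Fintype.card Sg : ℝ) * ∑ z, Mbz hh G b z i j ^ 2 -
        2 * (((Fintype.card Sg : ℝ) / Fintype.card H) * ∑ a, G a i j) ^ 2 := by
      intro b
      rw [sum_diff_sq (fun z => Mbz hh G b z i j), hsum]
    rw [Finset.sum_congr rfl fun b _ => e1 b, Finset.sum_sub_distrib, ← Finset.mul_sum,
      Finset.sum_const, Finset.card_univ, nsmul_eq_mul, Finset.sum_comm]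
    have e2 : ∀ z, ∑ b, Mbz hh G b z i j ^ 2 = (1 / (Fintype.card H : ℝ)) ^ 2 *
        (Fintype.card B * (∑ a, G a i j) ^ 2 +
          Fintype.card B * ((Fintype.card Sg : ℝ) - 1) * ∑ a, G a i j ^ 2) := by
      intro z
      rw [← sum_ind_sq hh (fun a => G a i j) z, Finset.sum_congr rfl fun b _ => by
        rw [hent b z i j, mul_pow], ← Finset.mul_sum]
      ring
    rw [Finset.sum_congr rfl fun z _ => e2 z, Finset.sum_const, Finset.card_univ, nsmul_eq_mul]
    have e3 : 0 ≤ ∑ a, G a i j ^ 2 := Finset.sum_nonneg fun _ _ => sq_nonneg _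
    generalize ∑ a, G a i j ^ 2 = y at e3 ⊢
    generalize ∑ a, G a i j = x
    have e4 : 2 * (Fintype.card Sg : ℝ) * ((Fintype.card Sg : ℝ) *
        ((1 / (Fintype.card H : ℝ)) ^ 2 * (Fintype.card B * x ^ 2 +
          Fintype.card B * ((Fintype.card Sg : ℝ) - 1) * y))) -
        Fintype.card B * (2 * ((Fintype.card Sg : ℝ) / Fintype.card H * x) ^ 2) =
        (Fintype.card Sg : ℝ) ^ 2 * (2 * ((Fintype.card Sg : ℝ) - 1) * Fintype.card B /
      (Fintype.card H : ℝ) ^ 2) * y := by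
      field_simp
      ring
    rw [e4]
    gcongr
    linarith
  have h1 : ∑ b, ∑ x : Sg × Sg, hs (Mbz hh G b x.1 - Mbz hh G b x.2) =
      ∑ i, ∑ j, ∑ b, ∑ x : Sg × Sg, (Mbz hh G b x.1 i j - Mbz hh G b x.2 i j) ^ 2 := by
    have e1 : ∀ b, ∑ x : Sg × Sg, hs (Mbz hh G b x.1 - Mbz hh G b x.2) =
        ∑ i, ∑ j, ∑ x : Sg × Sg, (Mbz hh G b x.1 i j - Mbz hh G b x.2 i j) ^ 2 := by
      intro b
      unfold hs
      rw [Finset.sum_comm]
      refine Finset.sum_congr rfl fun i _ => ?_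
      rw [Finset.sum_comm]
      rfl
    rw [Finset.sum_congr rfl fun b _ => e1 b, Finset.sum_comm]
    refine Finset.sum_congr rfl fun i _ => ?_
    rw [Finset.sum_comm]
  have h2 : ∑ a, hs (G a) = ∑ i, ∑ j, ∑ a, G a i j ^ 2 := by
    unfold hs
    rw [Finset.sum_comm]
    refine Finset.sum_congr rfl fun i _ => ?_
    rw [Finset.sum_comm]
  rw [h1, h2, ← mul_assoc, Finset.mul_sum]
  refine Finset.sum_le_sum fun i _ => ?_
  rw [Finset.mul_sum]
  exact Finset.sum_le_sum fun j _ => hij i j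

variable {J : Type} [Fintype J] [DecidableEq J]

/-- one step, for all values of the block -/
theorem step_all [Nonempty Sg] [Nonempty H] (Φ : Bas Sg J) {s : ℝ} (hs1 : 1 ≤ s)
    (hh : Hsh H B Sg)
    (hsH : (s - 1) ^ 2 * (Fintype.card Sg : ℝ) ≤ 2 * Fintype.card H)
    (G : H → Matrix ι ι ℝ) (hG : ∀ a, (G a).PosSemidef) :
    ∃ W : B → Matrix (J × ι) ι ℝ,
    (∀ b z i j, ∑ κ, ∑ κ', Φ.ψ s κ z * Φ.ψ s κ' z * (W b * (W b)ᵀ) (κ, i) (κ', j) =
      Mbz hh G b z i j) ∧
    (Fintype.card H : ℝ) * ∑ b, hs (W b * (W b)ᵀ) ≤ 4 * Fintype.card B * ∑ a, hs (G a) := by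
  have hQ := card_pos (Sg := Sg)
  have hH := card_pos (Sg := H)
  choose W hW hWs using fun b => step_one Φ hs1 (Mbz hh G b) (Mbz_psd hh G hG b)
  refine ⟨W, hW, ?_⟩
  have hX : 0 ≤ ∑ a, hs (G a) := Finset.sum_nonneg fun a _ => hs_nonneg _
  have h1 : ∑ b, hs (W b * (W b)ᵀ) ≤ ∑ b : B, (2 * ((1 / (Fintype.card H : ℝ)) * ∑ a, hs (G a)) +
      (s - 1) ^ 2 / (2 * (Fintype.card Sg : ℝ) ^ 2) *
        ∑ x : Sg × Sg, hs (Mbz hh G b x.1 - Mbz hh G b x.2)) := by
    refine Finset.sum_le_sum fun b _ => (hWs b).trans ?_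
    refine add_le_add ?_ le_rfl
    rw [Mbz_avg]
    exact mul_le_mul_of_nonneg_left (hs_avg_le G) (by norm_num)
  have h2 := Mbz_diff hh G
  rw [Finset.sum_add_distrib, Finset.sum_const, Finset.card_univ, nsmul_eq_mul,
    ← Finset.mul_sum] at h1
  have h3 : (0 : ℝ) ≤ (s - 1) ^ 2 / (2 * (Fintype.card Sg : ℝ) ^ 2) := by positivity
  have h4 := mul_le_mul_of_nonneg_left h2 h3
  have h5 : ∑ b, hs (W b * (W b)ᵀ) ≤ (Fintype.card B : ℝ) * (2 * ((1 / (Fintype.card H : ℝ)) *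
      ∑ a, hs (G a))) + (s - 1) ^ 2 / (2 * (Fintype.card Sg : ℝ) ^ 2) *
      ((Fintype.card Sg : ℝ) ^ 2 * (2 * (Fintype.card Sg : ℝ) * Fintype.card B /
        (Fintype.card H : ℝ) ^ 2 * ∑ a, hs (G a))) := by linarith
  have h6 := mul_le_mul_of_nonneg_left h5 hH.le
  refine h6.trans ?_
  have h7 : (Fintype.card H : ℝ) * ((Fintype.card B : ℝ) * (2 * ((1 / (Fintype.card H : ℝ)) *
      ∑ a, hs (G a))) + (s - 1) ^ 2 / (2 * (Fintype.card Sg : ℝ) ^ 2) *
      ((Fintype.card Sg : ℝ) ^ 2 * (2 * (Fintype.card Sg : ℝ) * Fintype.card B /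
        (Fintype.card H : ℝ) ^ 2 * ∑ a, hs (G a)))) =
      (2 + (s - 1) ^ 2 * (Fintype.card Sg : ℝ) / Fintype.card H) *
        (Fintype.card B * ∑ a, hs (G a)) := by
    field_simp
  rw [h7]
  have h8 : (s - 1) ^ 2 * (Fintype.card Sg : ℝ) / Fintype.card H ≤ 2 := by
    rw [div_le_iff₀ hH]
    exact hsH
  have h9 : 0 ≤ (Fintype.card B : ℝ) * ∑ a, hs (G a) := by positivity
  nlinarith

end

end Pool.Agent.H49.SDP
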