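import Pool.Agent.H49.SDP.Hash

/-!
# MP_c62aed_lc, semidefinite relaxations: the decomposition (helper49)
-/

set_option autoImplicit false

namespace Pool.Agent.H49.SDP

open Matrix

section

variable {H B Sg J : Type} [Fintype H] [Fintype B] [Fintype Sg] [DecidableEq Sg] [DecidableEq H]
  [Fintype J] [DecidableEq J]

/-- product of the weighted basis functions -/
noncomputable def Psi (Φ : Bas Sg J) (s : ℝ) {N : ℕ} (κ : Fin N → J) (z : Fin N → Sg) : ℝ :=
  ∏ i, Φ.ψ s (κ i) (z i)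

/-- the average of `f a`, `a` with values `z` on the blocks `b` -/
noncomputable def Vb (hh : Hsh H B Sg) {ι : Type} [Fintype ι] {N : ℕ}
    (f : (Fin N → H) → Matrix ι ι ℝ) (b : Fin N → B) (z : Fin N → Sg) : Matrix ι ι ℝ :=
  ((Fintype.card Sg : ℝ) / Fintype.card H) ^ N •
    ∑ a : Fin N → H, (∏ i, if hh.ap (a i) (b i) = z i then (1 : ℝ) else 0) • f a

theorem sum_cons {X : Type} [Fintype X] {M : Type} [AddCommMonoid M] {N : ℕ}
    (F : (Fin (N + 1) → X) → M) :
    ∑ a, F a = ∑ x, ∑ a : Fin N → X, F (Fin.cons x a) := by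
  rw [← Fintype.sum_prod_type']
  exact (Fintype.sum_equiv (Fin.consEquiv fun _ => X) _ _ fun x => rfl).symm

theorem hs_submatrix {ι ι' : Type} [Fintype ι] [Fintype ι'] (e : ι' ≃ ι) (A : Matrix ι ι ℝ) :
    hs (A.submatrix e e) = hs A := by
  unfold hs
  refine Fintype.sum_equiv e _ _ fun i => ?_
  exact Fintype.sum_equiv e _ _ fun j => rfl

/-- the index equivalence -/
def eqv (J : Type) (ι : Type) (N : ℕ) : (Fin (N + 1) → J) × ι ≃ (Fin N → J) × (J × ι) where
  toFun x := (Fin.tail x.1, (x.1 0, x.2))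
  invFun y := (Fin.cons y.2.1 y.1, y.2.2)
  left_inv x := by
    obtain ⟨κ, i⟩ := x
    simp
  right_inv y := by
    obtain ⟨κ, k, i⟩ := y
    simp

theorem rec_main [Nonempty Sg] [Nonempty H] (Φ : Bas Sg J) {s : ℝ} (hs1 : 1 ≤ s)
    (hh : Hsh H B Sg) (hsH : (s - 1) ^ 2 * (Fintype.card Sg : ℝ) ≤ 2 * Fintype.card H) :
    ∀ (N : ℕ) (ι : Type) [Fintype ι] (f : (Fin N → H) → Matrix ι ι ℝ),
    (∀ a, (f a).PosSemidef) →
    ∃ G : (Fin N → B) → Matrix ((Fin N → J) × ι) ((Fin N → J) × ι) ℝ,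
    (∀ b, (G b).PosSemidef) ∧
    (∀ b z i j, ∑ κ, ∑ κ', Psi Φ s κ z * Psi Φ s κ' z * G b (κ, i) (κ', j) =
      Vb hh f b z i j) ∧
    (Fintype.card H : ℝ) ^ N * ∑ b, hs (G b) ≤
      4 ^ N * (Fintype.card B : ℝ) ^ N * ∑ a, hs (f a) := by
  have hH := card_pos (Sg := H)
  intro N
  induction N with
  | zero =>
    intro ι _ f hf
    refine ⟨fun b => (f Fin.elim0).submatrix Prod.snd Prod.snd, fun b => (hf _).submatrix _,
      ?_, ?_⟩
    · intro b z i j
      rw [Fintype.sum_unique, Fintype.sum_unique]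
      unfold Psi Vb
      rw [Fintype.sum_unique]
      simp
      rw [Subsingleton.elim (default : Fin 0 → H) Fin.elim0]
    · rw [Fintype.sum_unique, Fintype.sum_unique, pow_zero, pow_zero, pow_zero, one_mul, one_mul,
        one_mul, Subsingleton.elim (default : Fin 0 → H) Fin.elim0]
      have := hs_submatrix (Equiv.uniqueProd ι (Fin 0 → J)) (f Fin.elim0)
      exact le_of_eq this
  | succ N ih =>
    intro ι _ f hf
    choose W hW hWs using fun a' : Fin N → H =>
      step_all Φ hs1 hh hsH (fun x : H => f (Fin.cons x a')) (fun x => hf _)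
    choose G' hG'p hG'v hG's using fun b0 : B =>
      ih (J × ι) (fun a' => W a' b0 * (W a' b0)ᵀ) (fun a' => psd_mul_transpose _)
    refine ⟨fun b => (G' (b 0) (Fin.tail b)).submatrix (eqv J ι N) (eqv J ι N),
      fun b => (hG'p _ _).submatrix _, ?_, ?_⟩
    · intro b z i j
      have h1 : ∀ κ0 κ0', ∑ κ : Fin N → J, ∑ κ' : Fin N → J,
          Psi Φ s κ (Fin.tail z) * Psi Φ s κ' (Fin.tail z) *
            G' (b 0) (Fin.tail b) (κ, (κ0, i)) (κ', (κ0', j)) =
          Vb hh (fun a' => W a' (b 0) * (W a' (b 0))ᵀ) (Fin.tail b) (Fin.tail z) (κ0, i) (κ0', j)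
          := by
        intro κ0 κ0'
        exact hG'v (b 0) (Fin.tail b) (Fin.tail z) (κ0, i) (κ0', j)
      have h2 : ∀ (κ0 : J) (κ : Fin N → J), Psi Φ s (Fin.cons κ0 κ : Fin (N + 1) → J) z =
          Φ.ψ s κ0 (z 0) * Psi Φ s κ (Fin.tail z) := by
        intro κ0 κ
        unfold Psi
        rw [Fin.prod_univ_succ]
        rfl
      have h3 : ∑ κ : Fin (N + 1) → J, ∑ κ' : Fin (N + 1) → J, Psi Φ s κ z * Psi Φ s κ' z *
          (G' (b 0) (Fin.tail b)).submatrix (eqv J ι N) (eqv J ι N) (κ, i) (κ', j) =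
          ∑ κ0, ∑ κ0', Φ.ψ s κ0 (z 0) * Φ.ψ s κ0' (z 0) *
            ∑ κ : Fin N → J, ∑ κ' : Fin N → J,
            Psi Φ s κ (Fin.tail z) * Psi Φ s κ' (Fin.tail z) *
              G' (b 0) (Fin.tail b) (κ, (κ0, i)) (κ', (κ0', j)) := by
        rw [sum_cons]
        refine Finset.sum_congr rfl fun κ0 _ => ?_
        have h4 : ∀ κ : Fin N → J, ∑ κ' : Fin (N + 1) → J,
            Psi Φ s (Fin.cons κ0 κ : Fin (N + 1) → J) z * Psi Φ s κ' z *
            (G' (b 0) (Fin.tail b)).submatrix (eqv J ι N) (eqv J ι N)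
              ((Fin.cons κ0 κ : Fin (N + 1) → J), i) (κ', j) =
            ∑ κ0', Φ.ψ s κ0 (z 0) * Φ.ψ s κ0' (z 0) * ∑ κ' : Fin N → J,
              Psi Φ s κ (Fin.tail z) * Psi Φ s κ' (Fin.tail z) *
              G' (b 0) (Fin.tail b) (κ, (κ0, i)) (κ', (κ0', j)) := by
          intro κ
          rw [sum_cons]
          refine Finset.sum_congr rfl fun κ0' _ => ?_
          rw [Finset.mul_sum]
          refine Finset.sum_congr rfl fun κ' _ => ?_
          rw [h2, h2]
          have h5 : (G' (b 0) (Fin.tail b)).submatrix (eqv J ι N) (eqv J ι N)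
              ((Fin.cons κ0 κ : Fin (N + 1) → J), i) ((Fin.cons κ0' κ' : Fin (N + 1) → J), j) =
              G' (b 0) (Fin.tail b) (κ, (κ0, i)) (κ', (κ0', j)) := by
            rw [Matrix.submatrix_apply]
            simp [eqv]
          rw [h5]
          ring
        rw [Finset.sum_congr rfl fun κ _ => h4 κ, Finset.sum_comm]
        refine Finset.sum_congr rfl fun κ0' _ => ?_
        rw [Finset.mul_sum]
      rw [h3]
      have h6 : ∀ κ0 κ0', Φ.ψ s κ0 (z 0) * Φ.ψ s κ0' (z 0) * (∑ κ : Fin N → J,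
          ∑ κ' : Fin N → J, Psi Φ s κ (Fin.tail z) * Psi Φ s κ' (Fin.tail z) *
              G' (b 0) (Fin.tail b) (κ, (κ0, i)) (κ', (κ0', j))) =
          ((Fintype.card Sg : ℝ) / Fintype.card H) ^ N * ∑ a' : Fin N → H,
            (∏ l, if hh.ap (a' l) (Fin.tail b l) = Fin.tail z l then (1 : ℝ) else 0) *
            (Φ.ψ s κ0 (z 0) * Φ.ψ s κ0' (z 0) * (W a' (b 0) * (W a' (b 0))ᵀ) (κ0, i) (κ0', j))
            := by
        intro κ0 κ0'
        rw [h1]
        unfold Vb
        rw [Matrix.smul_apply, smul_eq_mul, Matrix.sum_apply, Finset.mul_sum, Finset.mul_sum,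
          Finset.mul_sum]
        refine Finset.sum_congr rfl fun a' _ => ?_
        rw [Matrix.smul_apply, smul_eq_mul]
        ring
      rw [Finset.sum_congr rfl fun κ0 _ => Finset.sum_congr rfl fun κ0' _ => h6 κ0 κ0']
      have h7 : ∑ κ0, ∑ κ0', ((Fintype.card Sg : ℝ) / Fintype.card H) ^ N * ∑ a' : Fin N → H,
            (∏ l, if hh.ap (a' l) (Fin.tail b l) = Fin.tail z l then (1 : ℝ) else 0) *
            (Φ.ψ s κ0 (z 0) * Φ.ψ s κ0' (z 0) * (W a' (b 0) * (W a' (b 0))ᵀ) (κ0, i) (κ0', j)) =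
          ((Fintype.card Sg : ℝ) / Fintype.card H) ^ N * ∑ a' : Fin N → H,
            (∏ l, if hh.ap (a' l) (Fin.tail b l) = Fin.tail z l then (1 : ℝ) else 0) *
            ∑ κ0, ∑ κ0', (Φ.ψ s κ0 (z 0) * Φ.ψ s κ0' (z 0) *
              (W a' (b 0) * (W a' (b 0))ᵀ) (κ0, i) (κ0', j)) := by
        simp only [Finset.mul_sum]
        have e1 : ∀ F : J → J → (Fin N → H) → ℝ, ∑ κ0, ∑ κ0', ∑ a', F κ0 κ0' a' =
            ∑ a', ∑ κ0, ∑ κ0', F κ0 κ0' a' := by
          intro F
          rw [Finset.sum_comm' (s := Finset.univ) (t := fun _ => Finset.univ)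
            (t' := Finset.univ) (s' := fun _ => Finset.univ) (by simp)]
          rw [Finset.sum_congr rfl fun κ0' _ => Finset.sum_comm]
          rw [Finset.sum_comm]
          refine Finset.sum_congr rfl fun a' _ => ?_
          rw [Finset.sum_comm]
        rw [e1]
      rw [h7]
      rw [Finset.sum_congr rfl fun a' _ => by rw [hW a' (b 0) (z 0) i j]]
      have hM : ∀ a', Mbz hh (fun x : H => f (Fin.cons x a')) (b 0) (z 0) i j =
          ((Fintype.card Sg : ℝ) / Fintype.card H) * ∑ x,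
            (if hh.ap x (b 0) = z 0 then (1 : ℝ) else 0) * f (Fin.cons x a') i j := by
        intro a'
        unfold Mbz
        rw [Matrix.smul_apply, smul_eq_mul, Matrix.sum_apply]
        rfl
      have hV : Vb hh f b z i j = ((Fintype.card Sg : ℝ) / Fintype.card H) ^ (N + 1) *
          ∑ a' : Fin N → H, ∑ x, ((if hh.ap x (b 0) = z 0 then (1 : ℝ) else 0) *
            ∏ l, if hh.ap (a' l) (Fin.tail b l) = Fin.tail z l then (1 : ℝ) else 0) *
            f (Fin.cons x a') i j := by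
        unfold Vb
        rw [Matrix.smul_apply, smul_eq_mul, sum_cons, Matrix.sum_apply, Finset.sum_comm]
        congr 1
        refine Finset.sum_congr rfl fun x _ => ?_
        rw [Matrix.sum_apply]
        refine Finset.sum_congr rfl fun a' _ => ?_
        rw [Matrix.smul_apply, smul_eq_mul, Fin.prod_univ_succ]
        rfl
      rw [hV, pow_succ, mul_assoc]
      congr 1
      rw [Finset.mul_sum]
      refine Finset.sum_congr rfl fun a' _ => ?_
      rw [hM, Finset.mul_sum, Finset.mul_sum, Finset.mul_sum]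
      refine Finset.sum_congr rfl fun x _ => ?_
      ring
    · have h8 : ∑ b : Fin (N + 1) → B,
          hs ((G' (b 0) (Fin.tail b)).submatrix (eqv J ι N) (eqv J ι N)) =
          ∑ b0, ∑ b' : Fin N → B, hs (G' b0 b') := by
        rw [sum_cons]
        refine Finset.sum_congr rfl fun b0 _ => Finset.sum_congr rfl fun b' _ => ?_
        rw [hs_submatrix, Fin.cons_zero, Fin.tail_cons]
      rw [h8]
      have h9 : (Fintype.card H : ℝ) ^ N * ∑ b0, ∑ b' : Fin N → B, hs (G' b0 b') ≤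
          4 ^ N * (Fintype.card B : ℝ) ^ N *
            ∑ b0, ∑ a' : Fin N → H, hs (W a' b0 * (W a' b0)ᵀ) := by
        rw [Finset.mul_sum, Finset.mul_sum]
        exact Finset.sum_le_sum fun b0 _ => hG's b0
      have h10 : (Fintype.card H : ℝ) * ∑ b0, ∑ a' : Fin N → H, hs (W a' b0 * (W a' b0)ᵀ) ≤
          4 * Fintype.card B * ∑ a, hs (f a) := by
        rw [Finset.sum_comm, Finset.mul_sum, sum_cons (F := fun a => hs (f a)), Finset.sum_comm,
          Finset.mul_sum]
        exact Finset.sum_le_sum fun a' _ => hWs a'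
      have h11 := mul_le_mul_of_nonneg_left h9 hH.le
      have h12 : (0 : ℝ) ≤ 4 ^ N * (Fintype.card B : ℝ) ^ N := by positivity
      have h13 := mul_le_mul_of_nonneg_left h10 h12
      refine le_trans (le_of_eq ?_) (h11.trans (le_trans (le_of_eq ?_) (h13.trans
        (le_of_eq ?_))))
      · rw [pow_succ]; ring
      · ring
      · rw [pow_succ, pow_succ]; ring

end

end Pool.Agent.H49.SDP
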