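import Pool.Agent.H49.SDP.Mat

/-!
# MP_c62aed_lc, semidefinite relaxations: one step of the decomposition (helper49)
-/

set_option autoImplicit false

namespace Pool.Agent.H49.SDP

open Matrix

/-- a real orthonormal basis of the functions on `Sg`; the function with the index `o` is `1` -/
structure Bas (Sg J : Type) [Fintype Sg] [Fintype J] [DecidableEq Sg] [DecidableEq J] where
  φ : J → Sg → ℝ
  o : J
  one : ∀ z, φ o z = 1
  orth : ∀ κ κ', ∑ z, φ κ z * φ κ' z = if κ = κ' then (Fintype.card Sg : ℝ) else 0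
  compl : ∀ z z', ∑ κ, φ κ z * φ κ z' = if z = z' then (Fintype.card Sg : ℝ) else 0

/-- pairwise independent hash functions -/
structure Hsh (H B Sg : Type) [Fintype B] [Fintype Sg] [DecidableEq Sg] where
  ap : H → B → Sg
  unif : ∀ a z, (Fintype.card Sg : ℝ) * ∑ b, (if ap a b = z then (1 : ℝ) else 0) = Fintype.card B
  pair : ∀ a a', a ≠ a' → ∀ z, (Fintype.card Sg : ℝ) ^ 2 *
    ∑ b, (if ap a b = z then (1 : ℝ) else 0) * (if ap a' b = z then 1 else 0) = Fintype.card B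

section

variable {Sg J : Type} [Fintype Sg] [Fintype J] [DecidableEq Sg] [DecidableEq J]

/-- the weight of a basis function -/
noncomputable def Bas.w (Φ : Bas Sg J) (s : ℝ) (κ : J) : ℝ := if κ = Φ.o then 1 else Real.sqrt s

/-- the weighted basis -/
noncomputable def Bas.ψ (Φ : Bas Sg J) (s : ℝ) (κ : J) (z : Sg) : ℝ := Φ.φ κ z / Φ.w s κ

theorem Bas.w_pos (Φ : Bas Sg J) {s : ℝ} (h : 0 < s) (κ : J) : 0 < Φ.w s κ := by
  unfold Bas.w
  split_ifs
  · exact one_pos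
  · exact Real.sqrt_pos.2 h

theorem Bas.w_sq (Φ : Bas Sg J) {s : ℝ} (h : 0 < s) (κ : J) :
    Φ.w s κ ^ 2 = s - (s - 1) * (if κ = Φ.o then 1 else 0) := by
  unfold Bas.w
  split_ifs
  · ring
  · rw [Real.sq_sqrt h.le]; ring

theorem Bas.ψ_mul (Φ : Bas Sg J) {s : ℝ} (h : 0 < s) (κ : J) (z : Sg) :
    Φ.ψ s κ z * Φ.w s κ = Φ.φ κ z := by
  unfold Bas.ψ
  exact div_mul_cancel₀ _ (Φ.w_pos h κ).ne'

variable {ι : Type} [Fintype ι]

/-- the coefficients -/
noncomputable def coe (Φ : Bas Sg J) (Y : Sg → Matrix ι ι ℝ) (κ : J) : Matrix ι ι ℝ :=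
  (1 / (Fintype.card Sg : ℝ)) • ∑ z, Φ.φ κ z • Y z

theorem coe_symm (Φ : Bas Sg J) (Y : Sg → Matrix ι ι ℝ) (hY : ∀ z, (Y z)ᵀ = Y z) (κ : J) :
    (coe Φ Y κ)ᵀ = coe Φ Y κ := by
  unfold coe
  rw [Matrix.transpose_smul, Matrix.transpose_sum]
  congr 1
  refine Finset.sum_congr rfl fun z _ => ?_
  rw [Matrix.transpose_smul, hY]

theorem card_pos [Nonempty Sg] : 0 < (Fintype.card Sg : ℝ) := by
  exact_mod_cast Fintype.card_pos

theorem coe_sum [Nonempty Sg] (Φ : Bas Sg J) (Y : Sg → Matrix ι ι ℝ) (z : Sg) :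
    ∑ κ, Φ.φ κ z • coe Φ Y κ = Y z := by
  have hQ := card_pos (Sg := Sg)
  have h1 : ∀ κ, Φ.φ κ z • coe Φ Y κ =
      (1 / (Fintype.card Sg : ℝ)) • ∑ z', (Φ.φ κ z * Φ.φ κ z') • Y z' := by
    intro κ
    unfold coe
    rw [smul_comm, Finset.smul_sum]
    congr 1
    refine Finset.sum_congr rfl fun z' _ => ?_
    rw [smul_smul]
  rw [Finset.sum_congr rfl fun κ _ => h1 κ, ← Finset.smul_sum, Finset.sum_comm]
  have h2 : ∀ z', ∑ κ, (Φ.φ κ z * Φ.φ κ z') • Y z' =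
      (if z = z' then (Fintype.card Sg : ℝ) else 0) • Y z' := by
    intro z'
    rw [← Finset.sum_smul, Φ.compl]
  rw [Finset.sum_congr rfl fun z' _ => h2 z']
  simp only [ite_smul, zero_smul]
  rw [Finset.sum_ite_eq Finset.univ z, if_pos (Finset.mem_univ _), smul_smul,
    one_div_mul_cancel hQ.ne', one_smul]

theorem parseval [Nonempty Sg] (Φ : Bas Sg J) (Y : Sg → Matrix ι ι ℝ) :
    ∑ κ, coe Φ Y κ * coe Φ Y κ = (1 / (Fintype.card Sg : ℝ)) • ∑ z, Y z * Y z := by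
  have hQ := card_pos (Sg := Sg)
  have h1 : ∀ κ, coe Φ Y κ * coe Φ Y κ =
      (1 / (Fintype.card Sg : ℝ)) • ∑ z, (Φ.φ κ z • (Y z * coe Φ Y κ)) := by
    intro κ
    conv_lhs => enter [1]; unfold coe
    rw [Matrix.smul_mul, Finset.sum_mul]
    congr 1
    refine Finset.sum_congr rfl fun z _ => ?_
    rw [Matrix.smul_mul]
  rw [Finset.sum_congr rfl fun κ _ => h1 κ, ← Finset.smul_sum, Finset.sum_comm]
  congr 1
  refine Finset.sum_congr rfl fun z _ => ?_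
  have h2 : ∀ κ, Φ.φ κ z • (Y z * coe Φ Y κ) = Y z * (Φ.φ κ z • coe Φ Y κ) := by
    intro κ
    rw [Matrix.mul_smul]
  rw [Finset.sum_congr rfl fun κ _ => h2 κ, ← Finset.mul_sum, coe_sum]

theorem var_eq [Nonempty Sg] (Φ : Bas Sg J) (Y : Sg → Matrix ι ι ℝ) :
    (1 / (Fintype.card Sg : ℝ)) • ∑ z, Y z * Y z - coe Φ Y Φ.o * coe Φ Y Φ.o =
    (1 / (2 * (Fintype.card Sg : ℝ) ^ 2)) • ∑ x : Sg × Sg, (Y x.1 - Y x.2) * (Y x.1 - Y x.2) := by
  have hQ := card_pos (Sg := Sg)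
  have h0 : coe Φ Y Φ.o = (1 / (Fintype.card Sg : ℝ)) • ∑ z, Y z := by
    unfold coe
    congr 1
    refine Finset.sum_congr rfl fun z _ => ?_
    rw [Φ.one, one_smul]
  obtain ⟨S, hS⟩ : ∃ S, S = ∑ z, Y z := ⟨_, rfl⟩
  obtain ⟨T, hT⟩ : ∃ T, T = ∑ z, Y z * Y z := ⟨_, rfl⟩
  have h1 : ∑ x : Sg × Sg, (Y x.1 - Y x.2) * (Y x.1 - Y x.2) =
      (2 * (Fintype.card Sg : ℝ)) • T - (2 : ℝ) • (S * S) := by
    rw [Fintype.sum_prod_type]
    have h2 : ∀ z z' : Sg, (Y z - Y z') * (Y z - Y z') =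
        Y z * Y z - Y z * Y z' - Y z' * Y z + Y z' * Y z' := by
      intro z z'
      noncomm_ring
    have h3 : ∀ z : Sg, ∑ z', (Y z - Y z') * (Y z - Y z') =
        (Fintype.card Sg : ℝ) • (Y z * Y z) - Y z * S - S * Y z + T := by
      intro z
      rw [Finset.sum_congr rfl fun z' _ => h2 z z', Finset.sum_add_distrib,
        Finset.sum_sub_distrib, Finset.sum_sub_distrib, Finset.sum_const, Finset.card_univ,
        ← Finset.mul_sum, ← Finset.sum_mul, ← hS, ← hT, Nat.cast_smul_eq_nsmul]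
    rw [Finset.sum_congr rfl fun z _ => h3 z, Finset.sum_add_distrib, Finset.sum_sub_distrib,
      Finset.sum_sub_distrib, Finset.sum_const, Finset.card_univ, ← Finset.smul_sum,
      ← Finset.mul_sum, ← Finset.sum_mul, ← hS, ← hT, ← Nat.cast_smul_eq_nsmul ℝ, two_smul]
    rw [mul_smul, two_smul]
    abel
  rw [h0, ← hS, ← hT, h1, Matrix.smul_mul, Matrix.mul_smul, smul_smul, smul_sub, smul_smul,
    smul_smul]
  congr 2
  · field_simp
  · field_simp

/-- one step for one value of the block -/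
theorem step_one [Nonempty Sg] (Φ : Bas Sg J) {s : ℝ} (hs1 : 1 ≤ s) (M : Sg → Matrix ι ι ℝ)
    (hM : ∀ z, (M z).PosSemidef) : ∃ W : Matrix (J × ι) ι ℝ,
    (∀ z i j, ∑ κ, ∑ κ', Φ.ψ s κ z * Φ.ψ s κ' z * (W * Wᵀ) (κ, i) (κ', j) = M z i j) ∧
    hs (W * Wᵀ) ≤ 2 * hs ((1 / (Fintype.card Sg : ℝ)) • ∑ z, M z) +
      (s - 1) ^ 2 / (2 * (Fintype.card Sg : ℝ) ^ 2) * ∑ x : Sg × Sg, hs (M x.1 - M x.2) := by
  have hQ := card_pos (Sg := Sg)
  have hs0 : 0 < s := by linarith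
  choose Y hY hYY using fun z => psd_sqrt (hM z)
  have hYs : ∀ z, (Y z)ᵀ = Y z := fun z => psd_symm (hY z)
  obtain ⟨C, hC⟩ : ∃ C, C = coe Φ Y := ⟨_, rfl⟩
  have hCs : ∀ κ, (C κ)ᵀ = C κ := fun κ => by rw [hC]; exact coe_symm Φ Y hYs κ
  refine ⟨Matrix.of fun x j => Φ.w s x.1 * C x.1 x.2 j, ?_, ?_⟩
  · intro z i j
    have h1 : ∀ κ κ', (Matrix.of (fun (x : J × ι) j => Φ.w s x.1 * C x.1 x.2 j) *
        (Matrix.of (fun (x : J × ι) j => Φ.w s x.1 * C x.1 x.2 j))ᵀ) (κ, i) (κ', j) =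
        Φ.w s κ * Φ.w s κ' * (C κ * C κ') i j := by
      intro κ κ'
      rw [Matrix.mul_apply, Matrix.mul_apply, Finset.mul_sum]
      refine Finset.sum_congr rfl fun l _ => ?_
      rw [Matrix.transpose_apply, Matrix.of_apply, Matrix.of_apply]
      have : C κ' j l = C κ' l j := by
        conv_lhs => rw [← hCs κ']
        rw [Matrix.transpose_apply]
      rw [this]
      ring
    have h2 : ∀ κ κ', Φ.ψ s κ z * Φ.ψ s κ' z * (Φ.w s κ * Φ.w s κ' * (C κ * C κ') i j) =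
        ((Φ.φ κ z • C κ) * (Φ.φ κ' z • C κ')) i j := by
      intro κ κ'
      rw [Matrix.smul_mul, Matrix.mul_smul, Matrix.smul_apply, Matrix.smul_apply, smul_eq_mul,
        smul_eq_mul, ← Φ.ψ_mul hs0 κ z, ← Φ.ψ_mul hs0 κ' z]
      ring
    calc ∑ κ, ∑ κ', Φ.ψ s κ z * Φ.ψ s κ' z * _ =
        ∑ κ, ∑ κ', ((Φ.φ κ z • C κ) * (Φ.φ κ' z • C κ')) i j := by
          refine Finset.sum_congr rfl fun κ _ => Finset.sum_congr rfl fun κ' _ => ?_
          rw [h1, h2]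
      _ = ((∑ κ, Φ.φ κ z • C κ) * (∑ κ', Φ.φ κ' z • C κ')) i j := by
          rw [Finset.sum_mul, Matrix.sum_apply]
          refine Finset.sum_congr rfl fun κ _ => ?_
          rw [Finset.mul_sum, Matrix.sum_apply]
      _ = M z i j := by
          rw [hC, coe_sum, hYY]
  · rw [hs_mul_transpose]
    have h1 : (Matrix.of (fun (x : J × ι) j => Φ.w s x.1 * C x.1 x.2 j))ᵀ *
        (Matrix.of (fun (x : J × ι) j => Φ.w s x.1 * C x.1 x.2 j)) =
        ∑ κ, Φ.w s κ ^ 2 • (C κ * C κ) := by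
      ext i j
      rw [Matrix.mul_apply, Fintype.sum_prod_type, Matrix.sum_apply]
      refine Finset.sum_congr rfl fun κ _ => ?_
      rw [Matrix.smul_apply, Matrix.mul_apply, smul_eq_mul, Finset.mul_sum]
      refine Finset.sum_congr rfl fun l _ => ?_
      rw [Matrix.transpose_apply, Matrix.of_apply, Matrix.of_apply]
      have : C κ l i = C κ i l := by
        conv_lhs => rw [← hCs κ]
        rw [Matrix.transpose_apply]
      rw [this]
      ring
    have h2 : ∑ κ, Φ.w s κ ^ 2 • (C κ * C κ) = (1 / (Fintype.card Sg : ℝ)) • ∑ z, M z +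
        (s - 1) • ((1 / (2 * (Fintype.card Sg : ℝ) ^ 2)) •
          ∑ x : Sg × Sg, (Y x.1 - Y x.2) * (Y x.1 - Y x.2)) := by
      rw [← var_eq Φ Y, ← parseval Φ Y, ← hC]
      have h3 : ∑ z, M z = ∑ z, Y z * Y z := Finset.sum_congr rfl fun z _ => (hYY z).symm
      rw [h3, ← parseval Φ Y, ← hC]
      have h4 : ∀ κ, Φ.w s κ ^ 2 • (C κ * C κ) = s • (C κ * C κ) -
          (s - 1) • (if κ = Φ.o then C κ * C κ else 0) := by
        intro κ
        rw [Φ.w_sq hs0]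
        split_ifs with h
        · rw [mul_one, sub_smul]
        · rw [mul_zero, sub_zero, smul_zero, sub_zero]
      rw [Finset.sum_congr rfl fun κ _ => h4 κ, Finset.sum_sub_distrib, ← Finset.smul_sum,
        ← Finset.smul_sum, Finset.sum_ite_eq' Finset.univ Φ.o, if_pos (Finset.mem_univ _)]
      generalize ∑ κ, C κ * C κ = A1
      generalize C Φ.o * C Φ.o = A2
      module
    rw [h1, h2]
    refine (hs_add_le _ _).trans ?_
    refine add_le_add le_rfl ?_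
    rw [hs_smul, hs_smul]
    have h5 : hs (∑ x : Sg × Sg, (Y x.1 - Y x.2) * (Y x.1 - Y x.2)) ≤
        (Fintype.card Sg : ℝ) ^ 2 * ∑ x : Sg × Sg, hs (M x.1 - M x.2) := by
      refine (hs_sum_le _).trans ?_
      rw [Fintype.card_prod, Nat.cast_mul, ← sq]
      refine mul_le_mul_of_nonneg_left (Finset.sum_le_sum fun x _ => ?_) (by positivity)
      rw [← hYY, ← hYY]
      exact hs_sqrt_le (hY _) (hY _)
    have h6 : 0 ≤ (s - 1) ^ 2 * (1 / (2 * (Fintype.card Sg : ℝ) ^ 2)) ^ 2 := by positivity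
    have h7 := mul_le_mul_of_nonneg_left h5 h6
    refine le_trans (le_of_eq ?_) (le_trans (mul_le_mul_of_nonneg_left h7 (by norm_num : (0:ℝ) ≤ 2))
      (le_of_eq ?_))
    · ring
    · field_simp

end

end Pool.Agent.H49.SDP
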